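import Mathlib

/-!
# Tubes and lines in `ℝ × ℝ^d`

Coordinate `0` of a point of `EuclideanSpace ℝ (Fin (d+1))` is called its height.
-/

namespace Pool.Agent.H27.Kakeya

open scoped InnerProductSpace

/-- The closed `δ`-tube of length `1` centred at `c` with unit direction `e`. -/
def tube {d : ℕ} (δ : ℝ) (c e : EuclideanSpace ℝ (Fin (d+1))) : Set (EuclideanSpace ℝ (Fin (d+1))) :=
  {x | |⟪x - c, e⟫_ℝ| ≤ 1/2 ∧ ‖x - c - ⟪x - c, e⟫_ℝ • e‖ ≤ δ}

/-- The line `{(t, b + t v)}` of `ℝ × ℝ^d` with slope `v` and position `b` at height `0`. -/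
def line {d : ℕ} (b v : EuclideanSpace ℝ (Fin d)) : Set (EuclideanSpace ℝ (Fin (d+1))) :=
  {p | ∀ j : Fin d, p j.succ = b j + p 0 * v j}


end Pool.Agent.H27.Kakeya
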