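import Mathlib
import Pool.Agent.H27.KakeyaDefs

/-!
# Kakeya inequalities for structured families of tubes: the common core

Put `F_t(v) = a v + t v` and `J_t(v) = |det (D a(v) + t)|`.

* `area_le`: for finitely many maps which are jointly at most `M`-to-one, the sum of the integrals of the
  Jacobians is at most `M` times the measure of the image region.
* `lintegral_det`: for every linear `A`, `t ↦ |det (A + t)|` is the modulus of a monic polynomial of
  degree `d`, so `∫ min (N, Λ/|det (A + t)|)^s dt ≤ C Λ^{1/d} N^{s - 1/d}` when `s d > 1`.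
* `stepE`: if `T(t, x)` tubes meet the point `(t, x)`, at least half of the slopes responsible
  for this satisfy `T(t, x) J_t(v) ≤ Λ`, where `Λ` is comparable with `M`.
* `core`: integrate `T^q` over `x`, then over `v`, and use `lintegral_det` in `t`.
* `fiber_bound`: almost every fibre of a polynomial map `ℝ^d → ℝ^d` is finite, with an explicit bound
  (linear algebra only).
* `tay_poly`, `tay_bound`: Taylor polynomials.
-/

namespace Pool.Agent.H27.Kakeya

open MeasureTheory Set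
open scoped ENNReal NNReal Topology InnerProductSpace



/-- the basic profile -/
noncomputable def prof (d : ℕ) (s Λ N : ℝ) (t : ℝ) : ℝ≥0∞ :=
  (min (ENNReal.ofReal N) (ENNReal.ofReal Λ / (ENNReal.ofReal |t|) ^ d)) ^ s

lemma prof_neg (d : ℕ) (s Λ N t : ℝ) : prof d s Λ N (-t) = prof d s Λ N t := by
  simp [prof]

lemma lintegral_tail (d : ℕ) (s Λ N : ℝ) (hs : 1 < d * s) (hs0 : 0 < s) (hΛ : 0 < Λ)
    (τ : ℝ) (hτ : 0 < τ) :
    ∫⁻ t in Ioi τ, prof d s Λ N t ≤ ENNReal.ofReal (Λ ^ s * (τ ^ (1 - d * s) / (d * s - 1))) := by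
  have h1 : ∫⁻ t in Ioi τ, prof d s Λ N t ≤ ∫⁻ t in Ioi τ, ENNReal.ofReal (Λ ^ s * t ^ (-(d * s))) := by
    apply setLIntegral_mono' measurableSet_Ioi
    intro t ht
    have ht0 : 0 < t := hτ.trans ht
    unfold prof
    calc (min (ENNReal.ofReal N) (ENNReal.ofReal Λ / (ENNReal.ofReal |t|) ^ d)) ^ s
        ≤ (ENNReal.ofReal Λ / (ENNReal.ofReal |t|) ^ d) ^ s :=
          ENNReal.rpow_le_rpow (min_le_right _ _) hs0.le
      _ = ENNReal.ofReal (Λ ^ s * t ^ (-(d * s))) := by
          rw [abs_of_pos ht0, ← ENNReal.ofReal_pow ht0.le, ← ENNReal.ofReal_div_of_pos (by positivity),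
            ENNReal.ofReal_rpow_of_pos (by positivity)]
          congr 1
          rw [Real.div_rpow hΛ.le (by positivity), ← Real.rpow_natCast, ← Real.rpow_mul ht0.le,
            Real.rpow_neg ht0.le]
          rfl
  refine h1.trans ?_
  have hlt : -(d * s) < -1 := by linarith
  have hint : IntegrableOn (fun t : ℝ => Λ ^ s * t ^ (-(d * s))) (Ioi τ) :=
    (integrableOn_Ioi_rpow_of_lt hlt hτ).const_mul _
  rw [← ofReal_integral_eq_lintegral_ofReal hint]
  · apply ENNReal.ofReal_le_ofReal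
    rw [integral_const_mul, integral_Ioi_rpow_of_lt hlt hτ]
    apply le_of_eq
    congr 1
    rw [show -(d * s) + 1 = -(d * s - 1) by ring, show (1:ℝ) - d * s = -(d * s - 1) by ring]
    rw [neg_div_neg_eq]
  · refine (ae_restrict_iff' measurableSet_Ioi).mpr (Filter.Eventually.of_forall ?_)
    intro t ht
    have ht0 : 0 < t := hτ.trans ht
    show 0 ≤ Λ ^ s * t ^ (-(d * s))
    positivity

lemma lintegral_prof (d : ℕ) (hd : 1 ≤ d) (s Λ N : ℝ) (hs : 1 < d * s) (hs0 : 0 < s) (hΛ : 0 < Λ)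
    (hN : 0 < N) :
    ∫⁻ t, prof d s Λ N t ≤ ENNReal.ofReal (2 * (d * s / (d * s - 1)) * Λ ^ ((1:ℝ) / d) * N ^ (s - 1 / d)) := by
  have hd0 : (0:ℝ) < d := by exact_mod_cast hd
  set τ : ℝ := (Λ / N) ^ ((1:ℝ) / d) with hτdef
  have hτ : 0 < τ := by positivity
  have hmid : ∫⁻ t in Icc (-τ) τ, prof d s Λ N t ≤ ENNReal.ofReal (2 * τ * N ^ s) := by
    calc ∫⁻ t in Icc (-τ) τ, prof d s Λ N t ≤ ∫⁻ t in Icc (-τ) τ, ENNReal.ofReal (N ^ s) := by
          apply lintegral_mono
          intro t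
          unfold prof
          calc (min (ENNReal.ofReal N) (ENNReal.ofReal Λ / (ENNReal.ofReal |t|) ^ d)) ^ s
            ≤ (ENNReal.ofReal N) ^ s := ENNReal.rpow_le_rpow (min_le_left _ _) hs0.le
          _ = ENNReal.ofReal (N ^ s) := ENNReal.ofReal_rpow_of_pos hN
      _ = ENNReal.ofReal (2 * τ * N ^ s) := by
          rw [setLIntegral_const, Real.volume_Icc, ← ENNReal.ofReal_mul (by positivity)]
          congr 1
          ring
  have hneg : ∫⁻ t in Iio (-τ), prof d s Λ N t = ∫⁻ t in Ioi τ, prof d s Λ N t := by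
    have h := (Measure.measurePreserving_neg (volume : Measure ℝ)).setLIntegral_comp_preimage_emb
      (MeasurableEquiv.neg ℝ).measurableEmbedding (prof d s Λ N) (Ioi τ)
    rw [← h]
    have : (Neg.neg ⁻¹' (Ioi τ) : Set ℝ) = Iio (-τ) := by
      ext x; simp [lt_neg]
    rw [this]
    apply setLIntegral_congr_fun measurableSet_Iio
    intro t _
    exact (prof_neg d s Λ N t).symm
  have hcover : (univ : Set ℝ) ⊆ Icc (-τ) τ ∪ (Ioi τ ∪ Iio (-τ)) := by
    intro t _
    by_cases h1 : t < -τ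
    · exact Or.inr (Or.inr h1)
    · by_cases h2 : τ < t
      · exact Or.inr (Or.inl h2)
      · exact Or.inl ⟨not_lt.mp h1, not_lt.mp h2⟩
  have htail := lintegral_tail d s Λ N hs hs0 hΛ τ hτ
  have hu1 : ∫⁻ t in (Ioi τ ∪ Iio (-τ)), prof d s Λ N t
      ≤ (∫⁻ t in Ioi τ, prof d s Λ N t) + (∫⁻ t in Iio (-τ), prof d s Λ N t) :=
    lintegral_union_le (μ := volume) (prof d s Λ N) (Ioi τ) (Iio (-τ))
  have hu2 : ∫⁻ t in Icc (-τ) τ ∪ (Ioi τ ∪ Iio (-τ)), prof d s Λ N t
      ≤ (∫⁻ t in Icc (-τ) τ, prof d s Λ N t) + (∫⁻ t in (Ioi τ ∪ Iio (-τ)), prof d s Λ N t) :=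
    lintegral_union_le (μ := volume) (prof d s Λ N) (Icc (-τ) τ) (Ioi τ ∪ Iio (-τ))
  calc ∫⁻ t, prof d s Λ N t = ∫⁻ t in univ, prof d s Λ N t := by rw [Measure.restrict_univ]
    _ ≤ ∫⁻ t in Icc (-τ) τ ∪ (Ioi τ ∪ Iio (-τ)), prof d s Λ N t := lintegral_mono_set hcover
    _ ≤ (∫⁻ t in Icc (-τ) τ, prof d s Λ N t) + (∫⁻ t in (Ioi τ ∪ Iio (-τ)), prof d s Λ N t) := hu2
    _ ≤ (∫⁻ t in Icc (-τ) τ, prof d s Λ N t) + ((∫⁻ t in Ioi τ, prof d s Λ N t) + (∫⁻ t in Iio (-τ), prof d s Λ N t)) :=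
        add_le_add le_rfl hu1
    _ ≤ ENNReal.ofReal (2 * τ * N ^ s) + (ENNReal.ofReal (Λ ^ s * (τ ^ (1 - d * s) / (d * s - 1)))
          + ENNReal.ofReal (Λ ^ s * (τ ^ (1 - d * s) / (d * s - 1)))) := by
        rw [hneg]
        exact add_le_add hmid (add_le_add htail htail)
    _ = ENNReal.ofReal (2 * τ * N ^ s + 2 * (Λ ^ s * (τ ^ (1 - d * s) / (d * s - 1)))) := by
        have hds : 0 < d * s - 1 := by linarith
        rw [← ENNReal.ofReal_add (by positivity) (by positivity), ← ENNReal.ofReal_add (by positivity) (by positivity)]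
        congr 1
        ring
    _ = ENNReal.ofReal (2 * (d * s / (d * s - 1)) * Λ ^ ((1:ℝ) / d) * N ^ (s - 1 / d)) := by
        congr 1
        have hds : 0 < d * s - 1 := by linarith
        have e1 : τ * N ^ s = Λ ^ ((1:ℝ) / d) * N ^ (s - 1 / d) := by
          rw [hτdef, Real.div_rpow hΛ.le hN.le, Real.rpow_sub hN]
          field_simp
        have e2 : Λ ^ s * τ ^ (1 - d * s) = Λ ^ ((1:ℝ) / d) * N ^ (s - 1 / d) := by
          rw [hτdef, ← Real.rpow_mul (by positivity), Real.div_rpow hΛ.le hN.le, mul_div_assoc',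
            ← Real.rpow_add hΛ]
          rw [div_eq_mul_inv, ← Real.rpow_neg hN.le]
          congr 2
          · field_simp; ring
          · field_simp; ring
        have e3 : 2 * τ * N ^ s + 2 * (Λ ^ s * (τ ^ (1 - d * s) / (d * s - 1)))
            = 2 * (τ * N ^ s) + 2 * ((Λ ^ s * τ ^ (1 - d * s)) / (d * s - 1)) := by ring
        rw [e3, e1, e2]
        field_simp
        ring



section Poly
open MvPolynomial

lemma mv_null : ∀ (n : ℕ) (p : MvPolynomial (Fin n) ℝ), p ≠ 0 →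
    volume {x : Fin n → ℝ | MvPolynomial.eval x p = 0} = 0 := by
  intro n
  induction n with
  | zero =>
    intro p hp
    rw [MvPolynomial.eq_C_of_isEmpty p] at hp ⊢
    have hc : MvPolynomial.coeff 0 p ≠ 0 := by
      intro h; apply hp; rw [h, map_zero]
    simp [hc]
  | succ n ih =>
    intro p hp
    set P := finSuccEquiv ℝ n p with hP
    have hP0 : P ≠ 0 := by
      intro h
      apply hp
      exact (finSuccEquiv ℝ n).injective (by rw [← hP, h, map_zero])
    have hmp := volume_preserving_piFinSuccAbove (fun _ : Fin (n+1) => ℝ) 0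
    set S' : Set (ℝ × (Fin n → ℝ)) := {z | MvPolynomial.eval z.2 (Polynomial.eval (C z.1) P) = 0} with hS'
    have hcont : Continuous (fun z : ℝ × (Fin n → ℝ) => MvPolynomial.eval (Fin.cons z.1 z.2 : Fin (n+1) → ℝ) p) := by
      apply (MvPolynomial.continuous_eval p).comp
      apply continuous_pi
      intro i
      refine Fin.cases ?_ (fun j => ?_) i
      · simp only [Fin.cons_zero]; exact continuous_fst
      · simp only [Fin.cons_succ]; exact (continuous_apply j).comp continuous_snd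
    have hev : ∀ z : ℝ × (Fin n → ℝ), MvPolynomial.eval z.2 (Polynomial.eval (C z.1) P)
        = MvPolynomial.eval (Fin.cons z.1 z.2 : Fin (n+1) → ℝ) p := by
      intro z
      rw [MvPolynomial.eval_eq_eval_mv_eval', ← hP, Polynomial.eval_map]
      rw [Polynomial.eval, Polynomial.hom_eval₂]
      simp
    have hS'm : MeasurableSet S' := by
      have : S' = {z | MvPolynomial.eval (Fin.cons z.1 z.2 : Fin (n+1) → ℝ) p = 0} := by
        ext z; simp only [hS', Set.mem_ofPred_eq, hev]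
      rw [this]
      exact (isClosed_eq hcont continuous_const).measurableSet
    have hpre : {x : Fin (n+1) → ℝ | MvPolynomial.eval x p = 0}
        = (MeasurableEquiv.piFinSuccAbove (fun _ : Fin (n+1) => ℝ) 0) ⁻¹' S' := by
      ext x
      simp only [hS', Set.mem_preimage, Set.mem_ofPred_eq, hev]
      have : (Fin.cons ((MeasurableEquiv.piFinSuccAbove (fun _ : Fin (n+1) => ℝ) 0) x).1
          ((MeasurableEquiv.piFinSuccAbove (fun _ : Fin (n+1) => ℝ) 0) x).2 : Fin (n+1) → ℝ) = x := by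
        ext i
        refine Fin.cases ?_ (fun j => ?_) i
        · rfl
        · rfl
      rw [this]
    rw [hpre, hmp.measure_preimage hS'm.nullMeasurableSet, Measure.volume_eq_prod,
      Measure.measure_prod_null hS'm]
    have hfin : {y : ℝ | Polynomial.eval (C y) P = 0}.Finite := by
      have h1 : {z : MvPolynomial (Fin n) ℝ | P.IsRoot z}.Finite := Polynomial.finite_setOfPred_isRoot hP0
      have h2 : {y : ℝ | Polynomial.eval (C y) P = 0} = (C : ℝ →+* MvPolynomial (Fin n) ℝ) ⁻¹' {z | P.IsRoot z} := rfl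
      rw [h2]
      exact h1.preimage (MvPolynomial.C_injective _ _).injOn
    have hae : ∀ᵐ y : ℝ, y ∉ {y : ℝ | Polynomial.eval (C y) P = 0} := by
      rw [ae_iff]
      simpa using hfin.measure_zero volume
    filter_upwards [hae] with y hy
    exact ih _ hy

end Poly

section Rel
open MvPolynomial

/-- linear relation among many polynomials of bounded degrees -/
lemma lin_rel {d m : ℕ} {κ : Type*} [Fintype κ] (g : κ → MvPolynomial (Fin d) ℝ)
    (hg : ∀ k i, degreeOf i (g k) ≤ m) (hcard : (m + 1) ^ d < Fintype.card κ) :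
    ∃ c : κ → ℝ, (∃ k, c k ≠ 0) ∧ ∑ k, c k • g k = 0 := by
  classical
  -- coefficient vector in the box
  let box : (Fin d → Fin (m+1)) → (Fin d →₀ ℕ) := fun β => Finsupp.equivFunOnFinite.symm (fun i => (β i : ℕ))
  let T : MvPolynomial (Fin d) ℝ →ₗ[ℝ] ((Fin d → Fin (m+1)) → ℝ) :=
    LinearMap.pi (fun β => MvPolynomial.lcoeff ℝ (box β))
  have hdim : Module.finrank ℝ ((Fin d → Fin (m+1)) → ℝ) < (Finset.univ : Finset κ).card := by
    rw [Module.finrank_fintype_fun_eq_card, Fintype.card_fun, Fintype.card_fin, Fintype.card_fin,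
      Finset.card_univ]
    exact hcard
  obtain ⟨c, hc, hc0⟩ : ∃ c : κ → ℝ, ∑ k, c k • T (g k) = 0 ∧ ∃ k, c k ≠ 0 := by
    have hnot : ¬ LinearIndependent ℝ (fun k => T (g k)) := by
      intro hli
      have := hli.fintype_card_le_finrank
      rw [Finset.card_univ] at hdim
      omega
    rw [Fintype.not_linearIndependent_iff] at hnot
    exact hnot
  refine ⟨c, hc0, ?_⟩
  have hT : T (∑ k, c k • g k) = 0 := by
    rw [map_sum]; simpa using hc
  have hdeg : ∀ i, degreeOf i (∑ k, c k • g k) ≤ m := by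
    intro i
    refine (degreeOf_sum_le i Finset.univ _).trans (Finset.sup_le fun k _ => ?_)
    rw [MvPolynomial.smul_eq_C_mul]
    refine (degreeOf_mul_le _ _ _).trans ?_
    rw [degreeOf_C, zero_add]
    exact hg k i
  ext s
  rw [MvPolynomial.coeff_zero]
  by_contra hs
  have hsupp : s ∈ (∑ k, c k • g k).support := MvPolynomial.mem_support_iff.mpr hs
  have hsm : ∀ i, s i ≤ m := fun i => (MvPolynomial.monomial_le_degreeOf i hsupp).trans (hdeg i)
  have h1 := congrFun hT (fun i => ⟨s i, Nat.lt_succ_of_le (hsm i)⟩)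
  apply hs
  have h2 : box (fun i => ⟨s i, Nat.lt_succ_of_le (hsm i)⟩) = s := by
    ext i; simp [box]
  rw [← h2]
  exact h1

/-- an algebraic relation of bounded degree in the last polynomial -/
lemma alg_rel {d D : ℕ} (F : Fin d → MvPolynomial (Fin d) ℝ) (hF : ∀ i k, degreeOf k (F i) ≤ D)
    (l : MvPolynomial (Fin d) ℝ) (hl : ∀ k, degreeOf k l ≤ 1) :
    ∃ Q : Fin ((D * d + 1) ^ d + 1) → MvPolynomial (Fin d) ℝ, (∃ j, Q j ≠ 0) ∧
      ∑ j, aeval F (Q j) * l ^ (j : ℕ) = 0 := by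
  classical
  set K := (D * d + 1) ^ d with hK
  let κ := (Fin d → Fin (K + 1)) × Fin (K + 1)
  let g : κ → MvPolynomial (Fin d) ℝ := fun z => (∏ i, F i ^ (z.1 i : ℕ)) * l ^ (z.2 : ℕ)
  have hdeg : ∀ (z : κ) i, degreeOf i (g z) ≤ D * d * K + K := by
    intro z i
    refine (degreeOf_mul_le _ _ _).trans (add_le_add ?_ ?_)
    · refine (degreeOf_prod_le i _ _).trans ?_
      calc ∑ j, degreeOf i (F j ^ (z.1 j : ℕ)) ≤ ∑ j : Fin d, K * D := by
            apply Finset.sum_le_sum
            intro j _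
            refine (degreeOf_pow_le _ _ _).trans ?_
            exact Nat.mul_le_mul (Nat.lt_succ_iff.mp (z.1 j).2) (hF j i)
        _ = D * d * K := by simp; ring
    · refine (degreeOf_pow_le _ _ _).trans ?_
      calc (z.2 : ℕ) * degreeOf i l ≤ K * 1 := Nat.mul_le_mul (Nat.lt_succ_iff.mp z.2.2) (hl i)
        _ = K := mul_one _
  have hcard : (D * d * K + K + 1) ^ d < Fintype.card κ := by
    simp only [κ, Fintype.card_prod, Fintype.card_fun, Fintype.card_fin]
    calc (D * d * K + K + 1) ^ d ≤ ((D * d + 1) * (K + 1)) ^ d := by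
          apply Nat.pow_le_pow_left
          nlinarith
      _ = K * (K + 1) ^ d := by rw [mul_pow]
      _ < (K + 1) ^ d * (K + 1) := by
          rw [mul_comm]
          exact Nat.mul_lt_mul_of_pos_left (Nat.lt_succ_self K) (by positivity)
  obtain ⟨c, ⟨z0, hz0⟩, hc⟩ := lin_rel g hdeg hcard
  refine ⟨fun j => ∑ α : Fin d → Fin (K + 1), monomial (Finsupp.equivFunOnFinite.symm (fun i => (α i : ℕ))) (c (α, j)), ?_, ?_⟩
  · refine ⟨z0.2, ?_⟩
    intro h
    apply hz0
    have h1 := congrArg (fun p => coeff (Finsupp.equivFunOnFinite.symm (fun i => (z0.1 i : ℕ))) p) h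
    simp only [coeff_sum, coeff_monomial, coeff_zero] at h1
    rw [Finset.sum_eq_single z0.1] at h1
    · simpa using h1
    · intro α _ hα
      rw [if_neg]
      intro heq
      apply hα
      funext i
      have := congrArg (fun f : Fin d →₀ ℕ => f i) heq
      exact Fin.ext (by simpa using this)
    · simp
  · rw [← hc, Fintype.sum_prod_type_right]
    apply Finset.sum_congr rfl
    intro j _
    rw [map_sum, Finset.sum_mul]
    apply Finset.sum_congr rfl
    intro α _
    rw [aeval_monomial, MvPolynomial.smul_eq_C_mul]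
    simp only [g]
    rw [Finsupp.prod_fintype _ _ (by simp)]
    simp [MvPolynomial.algebraMap_eq, mul_assoc]

end Rel

section Fiber
open MvPolynomial

/-- moment curve linear forms -/
noncomputable def lform (d m : ℕ) : MvPolynomial (Fin d) ℝ := ∑ i : Fin d, C ((m:ℝ) ^ (i:ℕ)) * X i

lemma lform_deg (d m : ℕ) (k : Fin d) : degreeOf k (lform d m) ≤ 1 := by
  classical
  unfold lform
  refine (degreeOf_sum_le _ _ _).trans (Finset.sup_le fun i _ => ?_)
  refine (degreeOf_mul_le _ _ _).trans ?_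
  rw [degreeOf_C, zero_add, degreeOf_X]
  split_ifs <;> omega

lemma lform_eval (d m : ℕ) (x : Fin d → ℝ) : eval x (lform d m) = ∑ i : Fin d, (m:ℝ) ^ (i:ℕ) * x i := by
  simp [lform, map_sum]

lemma lform_sep (d : ℕ) (S : Finset (Fin d → ℝ)) :
    ∃ m : ℕ, ∀ x ∈ S, ∀ x' ∈ S, eval x (lform d m) = eval x' (lform d m) → x = x' := by
  classical
  let p : (Fin d → ℝ) → Polynomial ℝ := fun z => ∑ i : Fin d, Polynomial.monomial (i:ℕ) (z i)
  have hp0 : ∀ z, z ≠ 0 → p z ≠ 0 := by
    intro z hz h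
    apply hz
    funext i
    have h1 := congrArg (fun q => Polynomial.coeff q (i:ℕ)) h
    simp only [p, Polynomial.finsetSum_coeff, Polynomial.coeff_monomial, Polynomial.coeff_zero] at h1
    rw [Finset.sum_eq_single i] at h1
    · simpa using h1
    · intro j _ hj
      rw [if_neg]
      intro h; apply hj; exact Fin.ext h
    · simp
  have hpe : ∀ z (m : ℕ), Polynomial.eval (m:ℝ) (p z) = ∑ i : Fin d, (m:ℝ) ^ (i:ℕ) * z i := by
    intro z m
    simp only [p, Polynomial.eval_finsetSum, Polynomial.eval_monomial]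
    apply Finset.sum_congr rfl
    intro i _; ring
  have hbad : (⋃ z ∈ ((S ×ˢ S).filter (fun z => z.1 ≠ z.2)),
      {m : ℕ | Polynomial.eval (m:ℝ) (p (z.1 - z.2)) = 0}).Finite := by
    apply Set.Finite.biUnion (Finset.finite_toSet _)
    intro z hz
    have hz' : z.1 ≠ z.2 := (Finset.mem_filter.mp hz).2
    have h1 : {t : ℝ | (p (z.1 - z.2)).IsRoot t}.Finite :=
      Polynomial.finite_setOfPred_isRoot (hp0 _ (sub_ne_zero.mpr hz'))
    exact h1.preimage (Nat.cast_injective.injOn)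
  obtain ⟨m, hm⟩ := hbad.exists_notMem
  refine ⟨m, ?_⟩
  intro x hx x' hx' heq
  by_contra hne
  apply hm
  simp only [Set.mem_iUnion]
  refine ⟨(x, x'), ?_, ?_⟩
  · simp [hx, hx', hne]
  · show Polynomial.eval (m:ℝ) (p (x - x')) = 0
    rw [hpe]
    rw [lform_eval, lform_eval] at heq
    have : ∑ i : Fin d, (m:ℝ) ^ (i:ℕ) * (x - x') i
        = ∑ i : Fin d, (m:ℝ) ^ (i:ℕ) * x i - ∑ i : Fin d, (m:ℝ) ^ (i:ℕ) * x' i := by
      rw [← Finset.sum_sub_distrib]
      apply Finset.sum_congr rfl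
      intro i _
      rw [Pi.sub_apply]; ring
    rw [this, heq, sub_self]

lemma fiber_aux {d K : ℕ} (F : Fin d → MvPolynomial (Fin d) ℝ)
    (Q : ℕ → Fin (K + 1) → MvPolynomial (Fin d) ℝ) (j0 : ℕ → Fin (K + 1))
    (hj0 : ∀ m, Q m (j0 m) ≠ 0) (hQ : ∀ m, ∑ j, aeval F (Q m j) * (lform d m) ^ (j : ℕ) = 0) :
    ∀ᵐ y : Fin d → ℝ, {x : Fin d → ℝ | ∀ i, eval x (F i) = y i}.encard ≤ K := by
  classical
  have hae : ∀ᵐ y : Fin d → ℝ, ∀ m : ℕ, eval y (Q m (j0 m)) ≠ 0 := by
    rw [ae_all_iff]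
    intro m
    rw [ae_iff]
    simpa using mv_null d _ (hj0 m)
  filter_upwards [hae] with y hy
  by_contra hcon
  rw [not_le] at hcon
  have h1 : ((K + 1 : ℕ) : ℕ∞) ≤ {x : Fin d → ℝ | ∀ i, eval x (F i) = y i}.encard := by
    push_cast
    exact Order.add_one_le_of_lt hcon
  obtain ⟨S', hS', hcard⟩ := Set.exists_subset_encard_eq h1
  have hfin : S'.Finite := Set.finite_of_encard_eq_coe hcard
  set S := hfin.toFinset with hS
  have hScard : S.card = K + 1 := by
    have : (S.card : ℕ∞) = ((K + 1 : ℕ) : ℕ∞) := by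
      rw [← hcard, hS, Set.Finite.encard_eq_coe_toFinset_card hfin]
    exact_mod_cast this
  obtain ⟨m, hm⟩ := lform_sep d S
  set Rp : Polynomial ℝ := ∑ j : Fin (K + 1), Polynomial.monomial (j:ℕ) (eval y (Q m j)) with hRp
  have hR0 : Rp ≠ 0 := by
    intro h
    apply hy m
    have h1 := congrArg (fun q => Polynomial.coeff q ((j0 m : Fin (K+1)) : ℕ)) h
    simp only [hRp, Polynomial.finsetSum_coeff, Polynomial.coeff_monomial, Polynomial.coeff_zero] at h1
    rw [Finset.sum_eq_single (j0 m)] at h1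
    · simpa using h1
    · intro j _ hj
      rw [if_neg]
      intro h; apply hj; exact Fin.ext h
    · simp
  have hRdeg : Rp.natDegree ≤ K := by
    rw [hRp]
    apply Polynomial.natDegree_sum_le_of_forall_le
    intro j _
    exact (Polynomial.natDegree_monomial_le _).trans (Nat.lt_succ_iff.mp j.2)
  have hroot : ∀ x ∈ S, Rp.eval (eval x (lform d m)) = 0 := by
    intro x hx
    have hxF : ∀ i, eval x (F i) = y i := hS' (by simpa [hS] using hx)
    have h2 := congrArg (fun p => eval x p) (hQ m)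
    simp only [map_sum, map_mul, map_pow, map_zero] at h2
    rw [hRp, Polynomial.eval_finsetSum]
    rw [← h2]
    apply Finset.sum_congr rfl
    intro j _
    rw [Polynomial.eval_monomial]
    congr 1
    have h3 : eval x (aeval F (Q m j)) = eval (fun i => eval x (F i)) (Q m j) := by
      have := MvPolynomial.comp_aeval_apply F (aeval x : MvPolynomial (Fin d) ℝ →ₐ[ℝ] ℝ) (Q m j)
      simpa [MvPolynomial.coe_aeval_eq_eval] using this
    rw [h3]
    congr 2
    funext i
    exact (hxF i).symm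
  have hinj : Set.InjOn (fun x => eval x (lform d m)) S := fun x hx x' hx' h => hm x hx x' hx' h
  have hcardim : (S.image (fun x => eval x (lform d m))).card = K + 1 := by
    rw [Finset.card_image_of_injOn hinj, hScard]
  apply hR0
  apply Polynomial.eq_zero_of_natDegree_lt_card_of_eval_eq_zero' Rp (S.image (fun x => eval x (lform d m)))
  · intro z hz
    obtain ⟨x, hx, rfl⟩ := Finset.mem_image.mp hz
    exact hroot x hx
  · rw [hcardim]; omega

/-- **Almost every fibre of a polynomial map `ℝ^d → ℝ^d` has at most `(D d + 1)^d` points.** -/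
lemma fiber_bound {d D : ℕ} (F : Fin d → MvPolynomial (Fin d) ℝ) (hF : ∀ i k, degreeOf k (F i) ≤ D) :
    ∀ᵐ y : Fin d → ℝ, {x : Fin d → ℝ | ∀ i, eval x (F i) = y i}.encard ≤ ((D * d + 1) ^ d : ℕ) := by
  choose Q hQ0 hQ using fun m : ℕ => alg_rel F hF (lform d m) (lform_deg d m)
  choose j0 hj0 using hQ0
  exact fiber_aux F Q j0 hj0 hQ

end Fiber

section PolyMap
open MvPolynomial

/-- `P` is a polynomial map of degree at most `D` in each variable -/
def IsPolyMap {d : ℕ} (D : ℕ) (P : EuclideanSpace ℝ (Fin d) → EuclideanSpace ℝ (Fin d)) : Prop :=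
  ∃ F : Fin d → MvPolynomial (Fin d) ℝ, (∀ i k, degreeOf k (F i) ≤ D) ∧ ∀ v i, P v i = eval (v : Fin d → ℝ) (F i)

lemma IsPolyMap.differentiable {d D : ℕ} {P : EuclideanSpace ℝ (Fin d) → EuclideanSpace ℝ (Fin d)}
    (hP : IsPolyMap D P) : Differentiable ℝ P := by
  obtain ⟨F, _, hF⟩ := hP
  rw [differentiable_euclidean]
  intro i
  have h1 : (fun v => P v i) = (fun v : EuclideanSpace ℝ (Fin d) => eval (v : Fin d → ℝ) (F i)) := by
    funext v; exact hF v i
  rw [h1]
  intro v
  have h2 := AnalyticOnNhd.eval_continuousLinearMap'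
    (fun j : Fin d => (EuclideanSpace.proj j : EuclideanSpace ℝ (Fin d) →L[ℝ] ℝ)) (F i)
  exact (h2 v (Set.mem_univ v)).differentiableAt

lemma IsPolyMap.mult {d D : ℕ} {P : EuclideanSpace ℝ (Fin d) → EuclideanSpace ℝ (Fin d)}
    (hP : IsPolyMap D P) (hD : 1 ≤ D) (t : ℝ) :
    ∀ᵐ x : EuclideanSpace ℝ (Fin d), {v | P v + t • v = x}.encard ≤ ((D * d + 1) ^ d : ℕ) := by
  classical
  obtain ⟨F, hFd, hF⟩ := hP
  have h1 := fiber_bound (D := D) (fun i => F i + C t * X i) (by
    intro i k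
    refine (degreeOf_add_le _ _ _).trans (max_le (hFd i k) ?_)
    refine (degreeOf_mul_le _ _ _).trans ?_
    rw [degreeOf_C, zero_add, degreeOf_X]
    split_ifs <;> omega)
  have h2 := (EuclideanSpace.volume_preserving_symm_measurableEquiv_toLp (Fin d)).quasiMeasurePreserving.ae h1
  filter_upwards [h2] with x hx
  refine le_trans ?_ hx
  have hinj : Function.Injective (fun v : EuclideanSpace ℝ (Fin d) => (v : Fin d → ℝ)) :=
    fun v v' h => by ext i; exact congrFun h i
  rw [← hinj.encard_image]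
  apply Set.encard_mono
  rintro _ ⟨v, hv, rfl⟩
  intro i
  have hvi := congrArg (fun z : EuclideanSpace ℝ (Fin d) => z i) hv
  simp only [PiLp.add_apply, PiLp.smul_apply, smul_eq_mul] at hvi
  simp only [map_add, map_mul, eval_C, eval_X]
  rw [← hF v i]
  exact hvi

end PolyMap

section Taylor
open MvPolynomial Nat

lemma sum_apply' {d : ℕ} {ι : Type*} (s : Finset ι) (f : ι → EuclideanSpace ℝ (Fin d)) (i : Fin d) :
    (∑ j ∈ s, f j) i = ∑ j ∈ s, f j i := by
  rw [WithLp.ofLp_sum, Finset.sum_apply]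

/-- Taylor polynomial of `a` of order `n` at `v0` -/
noncomputable def tay {d : ℕ} (a : EuclideanSpace ℝ (Fin d) → EuclideanSpace ℝ (Fin d)) (n : ℕ)
    (v0 v : EuclideanSpace ℝ (Fin d)) : EuclideanSpace ℝ (Fin d) :=
  ∑ j ∈ Finset.range (n + 1), (j ! : ℝ)⁻¹ • (iteratedFDeriv ℝ j a v0 (fun _ ↦ v - v0))

lemma tay_poly {d : ℕ} (a : EuclideanSpace ℝ (Fin d) → EuclideanSpace ℝ (Fin d)) (n : ℕ)
    (v0 : EuclideanSpace ℝ (Fin d)) : IsPolyMap n (tay a n v0) := by
  classical
  refine ⟨fun i => ∑ j ∈ Finset.range (n + 1), ∑ f : Fin j → Fin d,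
    C ((j ! : ℝ)⁻¹ * (iteratedFDeriv ℝ j a v0 (fun k => EuclideanSpace.single (f k) 1)) i) *
      ∏ k, (X (f k) - C (v0 (f k))), ?_, ?_⟩
  · intro i l
    refine (degreeOf_sum_le _ _ _).trans (Finset.sup_le fun j hj => ?_)
    refine (degreeOf_sum_le _ _ _).trans (Finset.sup_le fun f _ => ?_)
    refine (degreeOf_mul_le _ _ _).trans ?_
    rw [degreeOf_C, zero_add]
    refine (degreeOf_prod_le _ _ _).trans ?_
    calc ∑ k : Fin j, degreeOf l (X (f k) - C (v0 (f k))) ≤ ∑ k : Fin j, 1 := by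
          apply Finset.sum_le_sum
          intro k _
          rw [sub_eq_add_neg, ← map_neg]
          refine (degreeOf_add_le _ _ _).trans (max_le ?_ ?_)
          · rw [degreeOf_X]; split_ifs <;> omega
          · rw [degreeOf_C]; omega
      _ = j := by simp
      _ ≤ n := Nat.lt_succ_iff.mp (Finset.mem_range.mp hj)
  · intro v i
    unfold tay
    rw [sum_apply', map_sum]
    apply Finset.sum_congr rfl
    intro j _
    rw [map_sum, PiLp.smul_apply, smul_eq_mul]
    have hdec : (v - v0) = ∑ l : Fin d, (v - v0) l • (EuclideanSpace.single l (1:ℝ)) := by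
      ext m
      rw [sum_apply']
      rw [Finset.sum_eq_single m]
      · simp
      · intro l _ hl
        simp [Ne.symm hl]
      · simp
    have hexp : iteratedFDeriv ℝ j a v0 (fun _ => v - v0)
        = ∑ f : Fin j → Fin d, (∏ k, (v - v0) (f k)) • iteratedFDeriv ℝ j a v0 (fun k => EuclideanSpace.single (f k) 1) := by
      conv_lhs => rw [hdec]
      have := (iteratedFDeriv ℝ j a v0).toMultilinearMap.map_sum (fun (_ : Fin j) (l : Fin d) => (v - v0) l • (EuclideanSpace.single l (1:ℝ) : EuclideanSpace ℝ (Fin d)))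
      refine Eq.trans this ?_
      apply Finset.sum_congr rfl
      intro f _
      exact (iteratedFDeriv ℝ j a v0).toMultilinearMap.map_smul_univ (fun k => (v - v0) (f k))
        (fun k => EuclideanSpace.single (f k) 1)
    rw [hexp, sum_apply', Finset.mul_sum]
    apply Finset.sum_congr rfl
    intro f _
    rw [map_mul, eval_C, map_prod, PiLp.smul_apply, smul_eq_mul]
    have : ∀ k, eval (v : Fin d → ℝ) (X (f k) - C (v0 (f k))) = (v - v0) (f k) := by
      intro k
      simp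
    simp only [this]
    ring

lemma tay_bound {d : ℕ} (a : EuclideanSpace ℝ (Fin d) → EuclideanSpace ℝ (Fin d)) (n : ℕ)
    (v0 v : EuclideanSpace ℝ (Fin d)) (B : ℝ)
    (hf : ∀ z ∈ segment ℝ v0 v, ContDiffAt ℝ (n + 1) a z)
    (hB : ∀ z ∈ segment ℝ v0 v, ‖iteratedFDeriv ℝ (n + 1) a z‖ ≤ B) :
    ‖a v - tay a n v0 v‖ ≤ (n ! : ℝ)⁻¹ * (B * ‖v - v0‖ ^ (n + 1)) := by
  have hseg : ∀ t ∈ Set.Icc (0:ℝ) 1, v0 + t • (v - v0) ∈ segment ℝ v0 v := by
    intro t ht
    rw [segment_eq_image']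
    exact ⟨t, ht, rfl⟩
  have h1 := map_add_eq_sum_add_integral_iteratedFDeriv (f := a) (x := v0) (y := v - v0) (n := n)
    (fun t ht => hf _ (hseg t ht))
  rw [add_sub_cancel] at h1
  have h2 : a v - tay a n v0 v = (n ! : ℝ)⁻¹ • ∫ t in (0:ℝ)..1, (1 - t)^n •
      iteratedFDeriv ℝ (n + 1) a (v0 + t • (v - v0)) (fun _ ↦ v - v0) := by
    unfold tay
    rw [h1]
    abel
  rw [h2, norm_smul, norm_inv, Real.norm_natCast]
  apply mul_le_mul_of_nonneg_left _ (by positivity)
  have h3 := intervalIntegral.norm_integral_le_of_norm_le_const (a := (0:ℝ)) (b := 1)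
    (C := B * ‖v - v0‖ ^ (n + 1))
    (f := fun t => (1 - t)^n • iteratedFDeriv ℝ (n + 1) a (v0 + t • (v - v0)) (fun _ ↦ v - v0)) (by
      intro t ht
      rw [Set.uIoc_of_le zero_le_one] at ht
      have ht' : t ∈ Set.Icc (0:ℝ) 1 := ⟨ht.1.le, ht.2⟩
      rw [norm_smul]
      have e1 : ‖(1 - t) ^ n‖ ≤ 1 := by
        rw [norm_pow, Real.norm_eq_abs, abs_of_nonneg (by linarith [ht.2])]
        exact pow_le_one₀ (by linarith [ht.2]) (by linarith [ht.1])
      have e2 := (iteratedFDeriv ℝ (n + 1) a (v0 + t • (v - v0))).le_opNorm (fun _ => v - v0)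
      rw [Finset.prod_const, Finset.card_univ, Fintype.card_fin] at e2
      have e3 := hB _ (hseg t ht')
      calc ‖(1 - t) ^ n‖ * ‖iteratedFDeriv ℝ (n + 1) a (v0 + t • (v - v0)) (fun _ ↦ v - v0)‖
          ≤ 1 * (‖iteratedFDeriv ℝ (n + 1) a (v0 + t • (v - v0))‖ * ‖v - v0‖ ^ (n + 1)) := by gcongr
        _ ≤ B * ‖v - v0‖ ^ (n + 1) := by
            rw [one_mul]
            gcongr)
  simpa using h3

end Taylor

section Area
variable {V : Type*} [NormedAddCommGroup V] [NormedSpace ℝ V] [FiniteDimensional ℝ V]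

lemma exists_radius (A : V →L[ℝ] V) : ∃ r : ℝ≥0, r ≠ 0 ∧ (A.det ≠ 0 →
    ∀ (f : V → V) (s : Set V), ApproximatesLinearOn f A s r → InjOn f s) := by
  classical
  by_cases h : A.det = 0
  · exact ⟨1, one_ne_zero, fun h' => absurd h h'⟩
  · let Ae := A.toContinuousLinearEquivOfDetNeZero h
    by_cases hN : ‖(Ae.symm : V →L[ℝ] V)‖₊ = 0
    · refine ⟨1, one_ne_zero, fun _ f s _ => ?_⟩
      have h0 : (Ae.symm : V →L[ℝ] V) = 0 := by simpa using hN
      have hsub : Subsingleton V := by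
        refine ⟨fun x y => ?_⟩
        have hx : ∀ z : V, z = 0 := by
          intro z
          have h1 : (Ae.symm : V →L[ℝ] V) (Ae z) = z := Ae.symm_apply_apply z
          rw [h0] at h1
          simpa using h1.symm
        rw [hx x, hx y]
      exact fun x _ y _ _ => Subsingleton.elim x y
    · refine ⟨‖(Ae.symm : V →L[ℝ] V)‖₊⁻¹ / 2, by positivity, fun _ f s hf => ?_⟩
      have hf' : ApproximatesLinearOn f (Ae : V →L[ℝ] V) s (‖(Ae.symm : V →L[ℝ] V)‖₊⁻¹ / 2) := by
        have : (Ae : V →L[ℝ] V) = A := by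
          ext x; rfl
        rw [this]; exact hf
      refine hf'.injOn (Or.inr ?_)
      have hpos : 0 < ‖(Ae.symm : V →L[ℝ] V)‖₊⁻¹ := by
        rw [inv_pos]; exact pos_iff_ne_zero.mpr hN
      exact NNReal.half_lt_self hpos.ne'

variable [MeasurableSpace V] [BorelSpace V]

/-- the integral of the Jacobian as a sum of measures of images of disjoint pieces -/
lemma area_pieces (μ : Measure V) [μ.IsAddHaarMeasure] (f : V → V) (s : Set V)
    (hs : MeasurableSet s) (hd : ∀ x ∈ s, DifferentiableAt ℝ f x) :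
    ∃ E : ℕ → Set V, (∀ n, E n ⊆ s) ∧ Pairwise (Function.onFun Disjoint E) ∧
      (∀ n, MeasurableSet (f '' (E n))) ∧
      ∫⁻ x in s, ENNReal.ofReal |(fderiv ℝ f x).det| ∂μ = ∑' n, μ (f '' (E n)) := by
  classical
  have hmeas : Measurable (fun x => (fderiv ℝ f x).det) :=
    ContinuousLinearMap.continuous_det.measurable.comp (measurable_fderiv ℝ f)
  set sp : Set V := s ∩ {x | (fderiv ℝ f x).det ≠ 0} with hsp
  have hspm : MeasurableSet sp := hs.inter (hmeas (measurableSet_singleton 0).compl)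
  choose r hr0 hr using (exists_radius (V := V))
  obtain ⟨t, A, hdisj, htm, hcov, happ, hA⟩ :=
    exists_partition_approximatesLinearOn_of_hasFDerivWithinAt f sp (fderiv ℝ f)
      (fun x hx => (hd x hx.1).hasFDerivAt.hasFDerivWithinAt) r hr0
  have hinj : ∀ n, InjOn f (sp ∩ t n) := by
    intro n
    rcases sp.eq_empty_or_nonempty with he | hne
    · rw [he, empty_inter]; exact injOn_empty f
    · obtain ⟨y, hy, hAy⟩ := hA hne n
      refine hr (A n) ?_ f _ (happ n)
      rw [hAy]; exact hy.2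
  have hd' : ∀ n, ∀ x ∈ sp ∩ t n, HasFDerivWithinAt f (fderiv ℝ f x) (sp ∩ t n) x :=
    fun n x hx => (hd x hx.1.1).hasFDerivAt.hasFDerivWithinAt
  have hm : ∀ n, MeasurableSet (sp ∩ t n) := fun n => hspm.inter (htm n)
  have himg : ∀ n, MeasurableSet (f '' (sp ∩ t n)) := fun n =>
    measurable_image_of_fderivWithin (hm n) (hd' n) (hinj n)
  have h1 : ∫⁻ x in s, ENNReal.ofReal |(fderiv ℝ f x).det| ∂μ
      = ∫⁻ x in sp, ENNReal.ofReal |(fderiv ℝ f x).det| ∂μ := by
    have hsplit : s = sp ∪ (s \ sp) := by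
      rw [union_sdiff_self, union_eq_self_of_subset_left inter_subset_left]
    conv_lhs => rw [hsplit]
    rw [lintegral_union (hs.diff hspm) disjoint_sdiff_self_right]
    have h0 : ∫⁻ x in s \ sp, ENNReal.ofReal |(fderiv ℝ f x).det| ∂μ = 0 := by
      rw [setLIntegral_congr_fun (g := fun _ => 0) (hs.diff hspm)]
      · simp
      · intro x hx
        have : (fderiv ℝ f x).det = 0 := by
          by_contra hne
          exact hx.2 ⟨hx.1, hne⟩
        simp [this]
    rw [h0, add_zero]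
  have h2 : sp = ⋃ n, sp ∩ t n := by
    rw [← inter_iUnion]; exact (inter_eq_left.mpr hcov).symm
  have h3 : ∫⁻ x in sp, ENNReal.ofReal |(fderiv ℝ f x).det| ∂μ
      = ∑' n, μ (f '' (sp ∩ t n)) := by
    conv_lhs => rw [h2]
    rw [lintegral_iUnion hm]
    · congr 1
      ext n
      exact lintegral_abs_det_fderiv_eq_addHaar_image μ (hm n) (hd' n) (hinj n)
    · intro i j hij
      exact (hdisj hij).mono inter_subset_right inter_subset_right
  refine ⟨fun n => sp ∩ t n, fun n x hx => hx.1.1, ?_, himg, h1.trans h3⟩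
  intro i j hij
  exact (hdisj hij).mono inter_subset_right inter_subset_right

/-- area inequality for a finite family of maps which are jointly at most `M`-to-one -/
lemma area_le {N : ℕ} (μ : Measure V) [μ.IsAddHaarMeasure] (f : Fin N → V → V) (s : Fin N → Set V)
    (hs : ∀ i, MeasurableSet (s i)) (hd : ∀ i, ∀ x ∈ s i, DifferentiableAt ℝ (f i) x) (M : ℕ) (B : Set V)
    (hsB : ∀ i, ∀ x ∈ s i, f i x ∈ B)
    (hM : ∀ᵐ y ∂μ, {z : Fin N × V | z.2 ∈ s z.1 ∧ f z.1 z.2 = y}.encard ≤ M) :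
    ∑ i, ∫⁻ x in s i, ENNReal.ofReal |(fderiv ℝ (f i) x).det| ∂μ ≤ M * μ B := by
  classical
  choose E hEs hEd hEm hE using fun i => area_pieces μ (f i) (s i) (hs i) (hd i)
  have h4 : ∀ i n, μ (f i '' (E i n)) = ∫⁻ y in B, (f i '' (E i n)).indicator 1 y ∂μ := by
    intro i n
    rw [lintegral_indicator_one (hEm i n), Measure.restrict_apply (hEm i n)]
    congr 1
    symm
    apply inter_eq_left.mpr
    rintro _ ⟨x, hx, rfl⟩
    exact hsB i x (hEs i n hx)
  have h5 : ∀ i n, Measurable ((f i '' (E i n)).indicator (1 : V → ℝ≥0∞)) := fun i n =>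
    measurable_one.indicator (hEm i n)
  calc ∑ i, ∫⁻ x in s i, ENNReal.ofReal |(fderiv ℝ (f i) x).det| ∂μ
      = ∑ i, ∑' n, ∫⁻ y in B, (f i '' (E i n)).indicator 1 y ∂μ := by
        apply Finset.sum_congr rfl
        intro i _
        rw [hE i]
        congr 1
        ext n
        exact h4 i n
    _ = ∑ i, ∫⁻ y in B, ∑' n, (f i '' (E i n)).indicator 1 y ∂μ := by
        apply Finset.sum_congr rfl
        intro i _
        rw [lintegral_tsum]
        intro n
        exact (h5 i n).aemeasurable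
    _ = ∫⁻ y in B, ∑ i, ∑' n, (f i '' (E i n)).indicator 1 y ∂μ := by
        rw [lintegral_finsetSum]
        intro i _
        exact Measurable.tsum (h5 i)
    _ ≤ ∫⁻ _ in B, (M : ℝ≥0∞) ∂μ := by
        apply lintegral_mono_ae
        apply ae_restrict_of_ae
        filter_upwards [hM] with y hy
        have hsum : ∑ i, ∑' n, (f i '' (E i n)).indicator (1 : V → ℝ≥0∞) y
            = ∑' z : Fin N × ℕ, (f z.1 '' (E z.1 z.2)).indicator (1 : V → ℝ≥0∞) y := by
          rw [ENNReal.tsum_prod (f := fun i n => (f i '' (E i n)).indicator (1 : V → ℝ≥0∞) y),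
            tsum_fintype]
        rw [hsum, ENNReal.tsum_eq_iSup_sum]
        apply iSup_le
        intro I
        have hfin : ∑ z ∈ I, (f z.1 '' (E z.1 z.2)).indicator (1 : V → ℝ≥0∞) y
            = ((I.filter (fun z => y ∈ f z.1 '' (E z.1 z.2))).card : ℝ≥0∞) := by
          rw [Finset.card_filter]
          push_cast
          apply Finset.sum_congr rfl
          intro z _
          by_cases hn : y ∈ f z.1 '' (E z.1 z.2)
          · simp [hn]
          · simp [hn]
        rw [hfin]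
        set I' := I.filter (fun z => y ∈ f z.1 '' (E z.1 z.2)) with hI'
        have hch : ∀ z : I', ∃ x, x ∈ E z.1.1 z.1.2 ∧ f z.1.1 x = y := by
          intro z
          have := (Finset.mem_filter.mp z.2).2
          obtain ⟨x, hx, hxy⟩ := this
          exact ⟨x, hx, hxy⟩
        choose g hg hgy using hch
        have hginj : Function.Injective (fun z : I' => ((z.1.1, g z) : Fin N × V)) := by
          intro z z' hzz
          simp only [Prod.mk.injEq] at hzz
          obtain ⟨h1, h2⟩ := hzz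
          by_contra hne
          have hne' : z.1.2 ≠ z'.1.2 := fun h => hne (Subtype.ext (Prod.ext h1 h))
          have hdd := hEd z.1.1 hne'
          have hg' := hg z'
          rw [← h1, ← h2] at hg'
          exact Set.disjoint_left.mp hdd (hg z) hg'
        have hrange : range (fun z : I' => ((z.1.1, g z) : Fin N × V)) ⊆
            {z : Fin N × V | z.2 ∈ s z.1 ∧ f z.1 z.2 = y} := by
          rintro _ ⟨z, rfl⟩
          exact ⟨hEs _ _ (hg z), hgy z⟩
        have hcard : (I'.card : ℕ∞) ≤ M := by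
          calc (I'.card : ℕ∞) = (range (fun z : I' => ((z.1.1, g z) : Fin N × V))).encard := by
                rw [← Set.image_univ, hginj.encard_image, Set.encard_univ]
                simp
            _ ≤ _ := Set.encard_mono hrange
            _ ≤ M := hy
        have hcard' : I'.card ≤ M := by exact_mod_cast hcard
        exact_mod_cast hcard'
    _ = M * μ B := by rw [setLIntegral_const]

end Area

section Det
variable {V : Type*} [NormedAddCommGroup V] [NormedSpace ℝ V] [FiniteDimensional ℝ V]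

lemma multiset_prod_norm (S : Multiset ℂ) (f : ℂ → ℂ) : ‖(S.map f).prod‖ = (S.map (fun z => ‖f z‖)).prod := by
  induction S using Multiset.induction_on with
  | empty => simp
  | cons a S ih => simp [ih]

lemma det_add_smul_id (A : V →L[ℝ] V) : ∃ S : Multiset ℝ, S.card = Module.finrank ℝ V ∧
    ∀ t : ℝ, (S.map (fun x => |t - x|)).prod ≤ |(A + t • ContinuousLinearMap.id ℝ V).det| := by
  classical
  set P := (-(A : V →ₗ[ℝ] V)).charpoly with hP
  set Q := P.map (algebraMap ℝ ℂ) with hQ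
  have hPm : P.Monic := LinearMap.charpoly_monic _
  have hQm : Q.Monic := hPm.map _
  have hsp : Q.Splits := IsAlgClosed.splits Q
  refine ⟨Q.roots.map Complex.re, ?_, ?_⟩
  · rw [Multiset.card_map, ← hsp.natDegree_eq_card_roots, hQ, hPm.natDegree_map,
      LinearMap.charpoly_natDegree]
  · intro t
    have h1 : P.eval t = (A + t • ContinuousLinearMap.id ℝ V).det := by
      rw [hP, LinearMap.eval_charpoly]
      have : (algebraMap ℝ (Module.End ℝ V)) t - -(A : V →ₗ[ℝ] V)
          = ((A + t • ContinuousLinearMap.id ℝ V : V →L[ℝ] V) : V →ₗ[ℝ] V) := by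
        ext x
        simp [Module.algebraMap_end_apply, add_comm]
      rw [this]
    have h2 : ((P.eval t : ℝ) : ℂ) = Q.eval (t : ℂ) := by
      rw [hQ]
      have := Polynomial.eval_map_apply (p := P) (f := algebraMap ℝ ℂ) t
      rw [show ((t : ℝ) : ℂ) = algebraMap ℝ ℂ t from rfl, this]
      rfl
    have h3 : |(A + t • ContinuousLinearMap.id ℝ V).det| = ‖Q.eval (t : ℂ)‖ := by
      rw [← h2, Complex.norm_real, h1, Real.norm_eq_abs]
    rw [h3, hsp.eval_eq_prod_roots_of_monic hQm, multiset_prod_norm, Multiset.map_map]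
    apply Multiset.prod_map_le_prod_map₀
    · intro i _
      exact abs_nonneg _
    · intro i _
      have := Complex.abs_re_le_norm ((t : ℂ) - i)
      simpa using this

lemma exists_min_prod (S : Multiset ℝ) (hS : S.card ≠ 0) (g : ℝ → ℝ) (hg : ∀ x, 0 ≤ g x) :
    ∃ x ∈ S, (g x) ^ S.card ≤ (S.map g).prod := by
  classical
  have hne : S.toFinset.Nonempty := by
    rw [Multiset.toFinset_nonempty]
    intro h; apply hS; simp [h]
  obtain ⟨x, hx, hmin⟩ := S.toFinset.exists_min_image g hne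
  refine ⟨x, Multiset.mem_toFinset.mp hx, ?_⟩
  have : (S.map (fun _ => g x)).prod ≤ (S.map g).prod := by
    apply Multiset.prod_map_le_prod_map₀
    · intro i _; exact hg x
    · intro i hi; exact hmin i (Multiset.mem_toFinset.mpr hi)
  simpa using this

lemma measurable_prof (d : ℕ) (s Λ N : ℝ) : Measurable (prof d s Λ N) := by
  unfold prof
  fun_prop

lemma lintegral_multiset (S : Multiset ℝ) (F : ℝ → ℝ≥0∞) (hF : Measurable F) :
    ∫⁻ t, (S.map (fun x => F (t - x))).sum = S.card * ∫⁻ t, F t := by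
  induction S using Multiset.induction_on with
  | empty => simp
  | cons a S ih =>
    simp only [Multiset.map_cons, Multiset.sum_cons, Multiset.card_cons]
    rw [lintegral_add_left (by fun_prop), ih, lintegral_sub_right_eq_self F a]
    push_cast
    ring

lemma lintegral_det (A : V →L[ℝ] V) (s Λ N : ℝ) (d : ℕ) (hd : 1 ≤ d)
    (hfr : Module.finrank ℝ V = d) (hs : 1 < d * s) (hs0 : 0 < s)
    (hΛ : 0 < Λ) (hN : 0 < N) :
    ∫⁻ t : ℝ, (min (ENNReal.ofReal N) (ENNReal.ofReal Λ /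
        ENNReal.ofReal |(A + t • ContinuousLinearMap.id ℝ V).det|)) ^ s
      ≤ ENNReal.ofReal (d * (2 * (d * s / (d * s - 1)) * Λ ^ ((1:ℝ) / d) * N ^ (s - 1 / d))) := by
  obtain ⟨S, hcard, hS⟩ := det_add_smul_id A
  rw [hfr] at hcard
  have hb : ∀ t : ℝ, (min (ENNReal.ofReal N) (ENNReal.ofReal Λ /
        ENNReal.ofReal |(A + t • ContinuousLinearMap.id ℝ V).det|)) ^ s
        ≤ (S.map (fun x => prof d s Λ N (t - x))).sum := by
    intro t
    obtain ⟨x, hx, hxp⟩ := exists_min_prod S (by omega) (fun x => |t - x|) (fun x => abs_nonneg _)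
    rw [hcard] at hxp
    have h1 : (min (ENNReal.ofReal N) (ENNReal.ofReal Λ /
        ENNReal.ofReal |(A + t • ContinuousLinearMap.id ℝ V).det|)) ^ s ≤ prof d s Λ N (t - x) := by
      unfold prof
      apply ENNReal.rpow_le_rpow _ hs0.le
      apply min_le_min_left
      apply ENNReal.div_le_div_left
      rw [← ENNReal.ofReal_pow (abs_nonneg _)]
      exact ENNReal.ofReal_le_ofReal (hxp.trans (hS t))
    refine h1.trans ?_
    exact Multiset.single_le_sum (fun _ _ => zero_le) _ (Multiset.mem_map_of_mem _ hx)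
  calc _ ≤ ∫⁻ t, (S.map (fun x => prof d s Λ N (t - x))).sum := lintegral_mono hb
    _ = d * ∫⁻ t, prof d s Λ N t := by
        rw [lintegral_multiset S _ (measurable_prof d s Λ N), hcard]
    _ ≤ d * ENNReal.ofReal (2 * (d * s / (d * s - 1)) * Λ ^ ((1:ℝ) / d) * N ^ (s - 1 / d)) := by
        gcongr
        exact lintegral_prof d hd s Λ N hs hs0 hΛ hN
    _ = _ := by
        rw [ENNReal.ofReal_mul (p := (d:ℝ)) (by positivity), ENNReal.ofReal_natCast]

end Det

section Core
variable {V : Type*} [NormedAddCommGroup V] [NormedSpace ℝ V] [FiniteDimensional ℝ V]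

/-- Jacobian of the time `t` map `v ↦ a v + t v` -/
noncomputable def jac (a : V → V) (t : ℝ) (v : V) : ℝ≥0∞ :=
  ENNReal.ofReal |(fderiv ℝ a v + t • ContinuousLinearMap.id ℝ V).det|

/-- number of tubes through a point; `w i` is the slope and `b i` the position of the `i`-th tube -/
noncomputable def cnt {N : ℕ} (b w : Fin N → V) (ζ : ℝ) (t : ℝ) (x : V) : ℝ≥0∞ :=
  ∑ i, {p : ℝ × V | ‖p.2 - (b i + p.1 • w i)‖ ≤ ζ}.indicator (fun _ => 1) (t, x)

/-- incidence indicator -/
noncomputable def inc (a : V → V) (η : ℝ) (t : ℝ) (x v : V) : ℝ≥0∞ :=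
  {p : (ℝ × V) × V | ‖p.1.2 - (a p.2 + p.1.1 • p.2)‖ ≤ η}.indicator (fun _ => 1) ((t, x), v)

lemma cnt_le {N : ℕ} (b w : Fin N → V) (ζ : ℝ) (t : ℝ) (x : V) :
    cnt b w ζ t x ≤ N := by
  unfold cnt
  calc ∑ i, {p : ℝ × V | ‖p.2 - (b i + p.1 • w i)‖ ≤ ζ}.indicator (fun _ => (1:ℝ≥0∞)) (t, x)
      ≤ ∑ i : Fin N, (1 : ℝ≥0∞) := by
        apply Finset.sum_le_sum
        intro i _
        exact Set.indicator_le_self' (fun _ _ => zero_le_one) _
    _ = N := by simp

variable [MeasurableSpace V] [BorelSpace V]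

lemma measurable_jac (a : V → V) : Measurable (fun p : ℝ × V => jac a p.1 p.2) := by
  unfold jac
  have h1 : Measurable (fun p : ℝ × V => fderiv ℝ a p.2 + p.1 • ContinuousLinearMap.id ℝ V) := by
    apply Measurable.add
    · exact (measurable_fderiv ℝ a).comp measurable_snd
    · exact measurable_fst.smul_const _
  exact (ContinuousLinearMap.continuous_det.measurable.comp h1).norm.ennreal_ofReal

lemma measurable_jac_v (a : V → V) (t : ℝ) : Measurable (jac a t) := by
  have h : Measurable (Function.uncurry (jac a)) := measurable_jac a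
  exact h.of_uncurry_left

lemma measurable_inc (a : V → V) (ha : Measurable a) (η : ℝ) :
    Measurable (fun p : (ℝ × V) × V => inc a η p.1.1 p.1.2 p.2) := by
  unfold inc
  apply measurable_const.indicator
  have : Measurable (fun p : (ℝ × V) × V => ‖p.1.2 - (a p.2 + p.1.1 • p.2)‖) := by fun_prop
  exact measurableSet_le this measurable_const

lemma measurable_inc_v (a : V → V) (ha : Measurable a) (η : ℝ) (t : ℝ) (x : V) :
    Measurable (inc a η t x) :=
  (measurable_inc a ha η).comp ((measurable_const (a := ((t, x) : ℝ × V))).prodMk measurable_id)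

lemma measurable_cnt {N : ℕ} (b w : Fin N → V) (ζ : ℝ) :
    Measurable (fun p : ℝ × V => cnt b w ζ p.1 p.2) := by
  unfold cnt
  apply Finset.measurable_fun_sum
  intro i _
  apply measurable_const.indicator
  have : Continuous (fun p : ℝ × V => ‖p.2 - (b i + p.1 • w i)‖) := by fun_prop
  exact (isClosed_le this continuous_const).measurableSet

lemma jac_bound {N : ℕ} (μ : Measure V) [μ.IsAddHaarMeasure] (a : Fin N → V → V)
    (ha : ∀ i, Measurable (a i)) (w : Fin N → V) (r : ℝ)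
    (hdf : ∀ i, ∀ᵐ v ∂μ, v ∈ Metric.ball (w i) r → DifferentiableAt ℝ (a i) v) (t : ℝ) (M : ℕ)
    (hM : ∀ᵐ x ∂μ, {z : Fin N × V | z.2 ∈ Metric.ball (w z.1) r ∧ a z.1 z.2 + t • z.2 = x}.encard ≤ M)
    (x : V) (η : ℝ) :
    ∑ i, ∫⁻ v in Metric.ball (w i) r ∩ {v | ‖x - (a i v + t • v)‖ ≤ η}, jac (a i) t v ∂μ
      ≤ M * μ (Metric.closedBall x η) := by
  classical
  set D : Fin N → Set V := fun i => {v | DifferentiableAt ℝ (a i) v} with hD
  have hDm : ∀ i, MeasurableSet (D i) := fun i => measurableSet_of_differentiableAt ℝ (a i)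
  have hDae : ∀ i, ∀ᵐ v ∂μ, v ∈ Metric.ball (w i) r → v ∈ D i := hdf
  set S : Fin N → Set V := fun i => {v | ‖x - (a i v + t • v)‖ ≤ η} with hS
  have hSm : ∀ i, MeasurableSet (S i) := by
    intro i
    have hcont : Measurable (fun v => ‖x - (a i v + t • v)‖) := by
      have := ha i
      fun_prop
    exact measurableSet_le hcont measurable_const
  set W : Fin N → Set V := fun i => (Metric.ball (w i) r ∩ S i) ∩ D i with hW
  have hWm : ∀ i, MeasurableSet (W i) := fun i => (measurableSet_ball.inter (hSm i)).inter (hDm i)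
  have h1 : ∀ i, ∫⁻ v in Metric.ball (w i) r ∩ S i, jac (a i) t v ∂μ = ∫⁻ v in W i, jac (a i) t v ∂μ := by
    intro i
    apply setLIntegral_congr
    filter_upwards [hDae i] with v hv
    apply propext
    constructor
    · intro h; exact ⟨h, hv h.1⟩
    · intro h; exact h.1
  have hfd : ∀ i, ∀ v ∈ W i, HasFDerivAt (fun v => a i v + t • v)
      (fderiv ℝ (a i) v + t • ContinuousLinearMap.id ℝ V) v := by
    intro i v hv
    have hv' : DifferentiableAt ℝ (a i) v := hv.2
    exact hv'.hasFDerivAt.add ((hasFDerivAt_id v).const_smul t)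
  have h2 : ∀ i, ∫⁻ v in W i, jac (a i) t v ∂μ
      = ∫⁻ v in W i, ENNReal.ofReal |(fderiv ℝ (fun v => a i v + t • v) v).det| ∂μ := by
    intro i
    apply setLIntegral_congr_fun (hWm i)
    intro v hv
    simp only [jac]
    rw [(hfd i v hv).fderiv]
  have h3 : ∀ i, ∫⁻ v in Metric.ball (w i) r ∩ {v | ‖x - (a i v + t • v)‖ ≤ η}, jac (a i) t v ∂μ
      = ∫⁻ v in W i, ENNReal.ofReal |(fderiv ℝ (fun v => a i v + t • v) v).det| ∂μ :=
    fun i => (h1 i).trans (h2 i)
  rw [Finset.sum_congr rfl (fun i _ => h3 i)]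
  apply area_le μ (fun i v => a i v + t • v) W hWm (fun i v hv => (hfd i v hv).differentiableAt) M
    (Metric.closedBall x η)
  · intro i v hv
    have : ‖x - (a i v + t • v)‖ ≤ η := hv.1.2
    rw [Metric.mem_closedBall, dist_comm, dist_eq_norm]
    exact this
  · filter_upwards [hM] with y hy
    refine le_trans (Set.encard_mono ?_) hy
    rintro z ⟨hv, hvy⟩
    exact ⟨hv.1.1, hvy⟩

/-- Step C -/
lemma cnt_mul_le {N : ℕ} (μ : Measure V) [μ.IsAddHaarMeasure] (a : Fin N → V → V)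
    (b w : Fin N → V) (r ζ ε η R : ℝ)
    (hb : ∀ i, ∀ v ∈ Metric.ball (w i) r, ‖b i - a i v‖ ≤ ε) (hη : ζ + ε + R * r ≤ η)
    (t : ℝ) (ht : |t| ≤ R) (x : V) :
    cnt b w ζ t x * μ (Metric.ball 0 r) ≤ ∑ i, ∫⁻ v in Metric.ball (w i) r, inc (a i) η t x v ∂μ := by
  unfold cnt
  rw [Finset.sum_mul]
  apply Finset.sum_le_sum
  intro i _
  by_cases hi : ‖x - (b i + t • w i)‖ ≤ ζ
  · have h1 : {p : ℝ × V | ‖p.2 - (b i + p.1 • w i)‖ ≤ ζ}.indicator (fun _ => (1:ℝ≥0∞)) (t, x) = 1 := by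
      apply Set.indicator_of_mem
      exact hi
    rw [h1, one_mul]
    have h2 : μ (Metric.ball 0 r) = ∫⁻ v in Metric.ball (w i) r, 1 ∂μ := by
      rw [lintegral_one, Measure.restrict_apply MeasurableSet.univ,
        Set.univ_inter, Measure.addHaar_ball_center μ (w i)]
    rw [h2]
    apply setLIntegral_mono' measurableSet_ball
    intro v hv
    have h3 : inc (a i) η t x v = 1 := by
      unfold inc
      apply Set.indicator_of_mem
      show ‖x - (a i v + t • v)‖ ≤ η
      have hvr : ‖w i - v‖ ≤ r := by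
        rw [← dist_eq_norm, dist_comm]; exact (Metric.mem_ball.mp hv).le
      have e2 : ‖t • (w i - v)‖ ≤ R * r := by
        rw [norm_smul, Real.norm_eq_abs]
        gcongr
        exact (abs_nonneg t).trans ht
      have e3 := hb i v hv
      calc ‖x - (a i v + t • v)‖ = ‖(x - (b i + t • w i)) + (b i - a i v) + t • (w i - v)‖ := by
            congr 1
            rw [smul_sub]; abel
        _ ≤ ‖x - (b i + t • w i)‖ + ‖b i - a i v‖ + ‖t • (w i - v)‖ :=
            norm_add₃_le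
        _ ≤ ζ + ε + R * r := by gcongr
        _ ≤ η := by linarith
    rw [h3]
  · have h1 : {p : ℝ × V | ‖p.2 - (b i + p.1 • w i)‖ ≤ ζ}.indicator (fun _ => (1:ℝ≥0∞)) (t, x) = 0 := by
      apply Set.indicator_of_notMem
      exact hi
    rw [h1, zero_mul]
    exact zero_le

/-- Step E -/
lemma stepE {N : ℕ} (μ : Measure V) [μ.IsAddHaarMeasure] (a : Fin N → V → V)
    (ha : ∀ i, Measurable (a i)) (b w : Fin N → V) (r ζ ε η R : ℝ)
    (hdf : ∀ i, ∀ᵐ v ∂μ, v ∈ Metric.ball (w i) r → DifferentiableAt ℝ (a i) v)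
    (hb : ∀ i, ∀ v ∈ Metric.ball (w i) r, ‖b i - a i v‖ ≤ ε) (hη : ζ + ε + R * r ≤ η) (M : ℕ)
    (t : ℝ) (ht : |t| ≤ R)
    (hM : ∀ᵐ x ∂μ, {z : Fin N × V | z.2 ∈ Metric.ball (w z.1) r ∧ a z.1 z.2 + t • z.2 = x}.encard ≤ M)
    (x : V) (Λ : ℝ≥0∞) (hΛ0 : Λ ≠ 0) (hΛt : Λ ≠ ⊤)
    (hΛ : 2 * M * μ (Metric.closedBall 0 η) = Λ * μ (Metric.ball 0 r)) :
    cnt b w ζ t x * μ (Metric.ball 0 r) ≤ 2 * ∑ i, ∫⁻ v in Metric.ball (w i) r, inc (a i) η t x v *
      {v | cnt b w ζ t x * jac (a i) t v ≤ Λ}.indicator (fun _ => 1) v ∂μ := by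
  classical
  set T := cnt b w ζ t x with hT
  set m := μ (Metric.ball (0 : V) r) with hm
  set G : Fin N → Set V := fun i => {v | T * jac (a i) t v ≤ Λ} with hG
  have hJm : ∀ i, Measurable (jac (a i) t) := fun i => measurable_jac_v (a i) t
  have hGm : ∀ i, MeasurableSet (G i) := fun i => measurableSet_le ((hJm i).const_mul T) measurable_const
  have hIm : ∀ i, Measurable (inc (a i) η t x) := fun i => measurable_inc_v (a i) (ha i) η t x
  have hmt : m ≠ ⊤ := measure_ball_lt_top.ne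
  have hTt : T ≠ ⊤ := ne_top_of_le_ne_top (ENNReal.natCast_ne_top N) (cnt_le b w ζ t x)
  set A : Fin N → ℝ≥0∞ := fun i => ∫⁻ v in Metric.ball (w i) r, inc (a i) η t x v * (G i).indicator (fun _ => 1) v ∂μ
    with hA
  set B : Fin N → ℝ≥0∞ := fun i => ∫⁻ v in Metric.ball (w i) r, inc (a i) η t x v * (G i)ᶜ.indicator (fun _ => 1) v ∂μ
    with hB
  have h1 : T * m ≤ ∑ i, A i + ∑ i, B i := by
    rw [← Finset.sum_add_distrib]
    refine (cnt_mul_le μ a b w r ζ ε η R hb hη t ht x).trans (Finset.sum_le_sum fun i _ => ?_)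
    rw [hA, hB]
    show _ ≤ (∫⁻ v in Metric.ball (w i) r, inc (a i) η t x v * (G i).indicator (fun _ => 1) v ∂μ) +
      (∫⁻ v in Metric.ball (w i) r, inc (a i) η t x v * (G i)ᶜ.indicator (fun _ => 1) v ∂μ)
    rw [← lintegral_add_left (f := fun v => inc (a i) η t x v * (G i).indicator (fun _ => 1) v)
      ((hIm i).mul (measurable_const.indicator (hGm i)))]
    apply le_of_eq
    apply lintegral_congr
    intro v
    by_cases hv : v ∈ G i
    · simp [hv]
    · simp [hv]
  set S : Fin N → Set V := fun i => {v | ‖x - (a i v + t • v)‖ ≤ η} with hS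
  have hSm : ∀ i, MeasurableSet (S i) := by
    intro i
    have hcont : Measurable (fun v => ‖x - (a i v + t • v)‖) := by
      have := ha i
      fun_prop
    exact measurableSet_le hcont measurable_const
  have h2' : ∀ i, Λ * B i ≤ T * ∫⁻ v in Metric.ball (w i) r ∩ S i, jac (a i) t v ∂μ := by
    intro i
    calc Λ * B i = ∫⁻ v in Metric.ball (w i) r, Λ * (inc (a i) η t x v * (G i)ᶜ.indicator (fun _ => 1) v) ∂μ := by
          rw [lintegral_const_mul]
          exact (hIm i).mul (measurable_const.indicator (hGm i).compl)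
      _ ≤ ∫⁻ v in Metric.ball (w i) r, T * ((S i).indicator (jac (a i) t) v) ∂μ := by
          apply lintegral_mono
          intro v
          show Λ * (inc (a i) η t x v * (G i)ᶜ.indicator (fun _ => 1) v) ≤ T * ((S i).indicator (jac (a i) t) v)
          by_cases hv : v ∈ (G i)ᶜ
          · have hlt : Λ ≤ T * jac (a i) t v := by
              have : ¬ (T * jac (a i) t v ≤ Λ) := hv
              exact (not_le.mp this).le
            rw [Set.indicator_of_mem hv, mul_one]
            by_cases hv' : v ∈ S i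
            · rw [Set.indicator_of_mem hv']
              have h1 : inc (a i) η t x v ≤ 1 := by
                unfold inc
                exact Set.indicator_le_self' (fun _ _ => zero_le_one) _
              calc Λ * inc (a i) η t x v ≤ (T * jac (a i) t v) * 1 := mul_le_mul' hlt h1
                _ = _ := mul_one _
            · have : inc (a i) η t x v = 0 := by
                unfold inc
                apply Set.indicator_of_notMem
                exact hv'
              rw [this, mul_zero]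
              exact zero_le
          · rw [Set.indicator_of_notMem hv, mul_zero, mul_zero]
            exact zero_le
      _ = T * ∫⁻ v in Metric.ball (w i) r ∩ S i, jac (a i) t v ∂μ := by
          rw [lintegral_const_mul, lintegral_indicator (hSm i), Measure.restrict_restrict (hSm i),
            Set.inter_comm]
          exact (hJm i).indicator (hSm i)
  have h2 : Λ * ∑ i, B i ≤ T * (M * μ (Metric.closedBall 0 η)) := by
    have h3 := jac_bound μ a ha w r hdf t M hM x η
    rw [Measure.addHaar_closedBall_center μ x] at h3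
    calc Λ * ∑ i, B i = ∑ i, Λ * B i := Finset.mul_sum _ _ _
      _ ≤ ∑ i, T * ∫⁻ v in Metric.ball (w i) r ∩ S i, jac (a i) t v ∂μ := Finset.sum_le_sum fun i _ => h2' i
      _ = T * ∑ i, ∫⁻ v in Metric.ball (w i) r ∩ S i, jac (a i) t v ∂μ := (Finset.mul_sum _ _ _).symm
      _ ≤ _ := by gcongr
  have h3 : 2 * ∑ i, B i ≤ T * m := by
    have h4 : Λ * (2 * ∑ i, B i) ≤ Λ * (T * m) := by
      calc Λ * (2 * ∑ i, B i) = 2 * (Λ * ∑ i, B i) := by ring
        _ ≤ 2 * (T * (M * μ (Metric.closedBall 0 η))) := by gcongr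
        _ = T * (2 * M * μ (Metric.closedBall 0 η)) := by ring
        _ = Λ * (T * m) := by rw [hΛ]; ring
    exact (ENNReal.mul_le_mul_iff_right hΛ0 hΛt).mp h4
  have h5 : T * m + T * m ≤ 2 * ∑ i, A i + T * m := by
    calc T * m + T * m = 2 * (T * m) := by ring
      _ ≤ 2 * (∑ i, A i + ∑ i, B i) := by gcongr
      _ = 2 * ∑ i, A i + 2 * ∑ i, B i := by ring
      _ ≤ 2 * ∑ i, A i + T * m := by gcongr
  exact (ENNReal.add_le_add_iff_right (ENNReal.mul_ne_top hTt hmt)).mp h5

/-- Step F -/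
lemma stepF {N : ℕ} (μ : Measure V) [μ.IsAddHaarMeasure] (a : Fin N → V → V)
    (ha : ∀ i, Measurable (a i)) (b w : Fin N → V) (r ζ ε η R : ℝ)
    (hdf : ∀ i, ∀ᵐ v ∂μ, v ∈ Metric.ball (w i) r → DifferentiableAt ℝ (a i) v)
    (hb : ∀ i, ∀ v ∈ Metric.ball (w i) r, ‖b i - a i v‖ ≤ ε) (hη : ζ + ε + R * r ≤ η) (M : ℕ)
    (t : ℝ) (ht : |t| ≤ R)
    (hM : ∀ᵐ x ∂μ, {z : Fin N × V | z.2 ∈ Metric.ball (w z.1) r ∧ a z.1 z.2 + t • z.2 = x}.encard ≤ M)
    (x : V) (Λ : ℝ≥0∞) (hΛ0 : Λ ≠ 0) (hΛt : Λ ≠ ⊤)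
    (hΛ : 2 * M * μ (Metric.closedBall 0 η) = Λ * μ (Metric.ball 0 r)) (q : ℝ) (hq : 1 < q) :
    (cnt b w ζ t x) ^ q * μ (Metric.ball 0 r) ≤ 2 * ∑ i, ∫⁻ v in Metric.ball (w i) r, inc (a i) η t x v *
      (min (N : ℝ≥0∞) (Λ / jac (a i) t v)) ^ (q - 1) ∂μ := by
  classical
  have hE := stepE μ a ha b w r ζ ε η R hdf hb hη M t ht hM x Λ hΛ0 hΛt hΛ
  have hTN : cnt b w ζ t x ≤ N := cnt_le b w ζ t x
  set T := cnt b w ζ t x with hT
  have hTt : T ≠ ⊤ := ne_top_of_le_ne_top (ENNReal.natCast_ne_top N) hTN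
  by_cases hT0 : T = 0
  · rw [hT0, ENNReal.zero_rpow_of_pos (by linarith), zero_mul]
    exact zero_le
  have hsplit : T ^ q = T ^ (q - 1) * T := by
    conv_lhs => rw [show q = (q - 1) + 1 by ring]
    rw [ENNReal.rpow_add _ _ hT0 hTt, ENNReal.rpow_one]
  set m := μ (Metric.ball (0 : V) r) with hm
  have hJm : ∀ i, Measurable (jac (a i) t) := fun i => measurable_jac_v (a i) t
  have hIm : ∀ i, Measurable (inc (a i) η t x) := fun i => measurable_inc_v (a i) (ha i) η t x
  have hGm : ∀ i, MeasurableSet {v | T * jac (a i) t v ≤ Λ} := fun i =>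
    measurableSet_le ((hJm i).const_mul T) measurable_const
  calc T ^ q * m = T ^ (q - 1) * (T * m) := by rw [hsplit]; ring
    _ ≤ T ^ (q - 1) * (2 * ∑ i, ∫⁻ v in Metric.ball (w i) r, inc (a i) η t x v *
      {v | T * jac (a i) t v ≤ Λ}.indicator (fun _ => 1) v ∂μ) := by gcongr
    _ = 2 * ∑ i, ∫⁻ v in Metric.ball (w i) r, T ^ (q - 1) * (inc (a i) η t x v *
      {v | T * jac (a i) t v ≤ Λ}.indicator (fun _ => 1) v) ∂μ := by
        have : ∀ i, ∫⁻ v in Metric.ball (w i) r, T ^ (q - 1) * (inc (a i) η t x v *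
            {v | T * jac (a i) t v ≤ Λ}.indicator (fun _ => 1) v) ∂μ = T ^ (q - 1) *
            ∫⁻ v in Metric.ball (w i) r, (inc (a i) η t x v *
            {v | T * jac (a i) t v ≤ Λ}.indicator (fun _ => 1) v) ∂μ := by
          intro i
          exact lintegral_const_mul _ ((hIm i).mul (measurable_const.indicator (hGm i)))
        simp only [this]
        rw [← Finset.mul_sum]
        ring
    _ ≤ _ := by
        refine mul_le_mul' le_rfl (Finset.sum_le_sum fun i _ => lintegral_mono fun v => ?_)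
        by_cases hv : T * jac (a i) t v ≤ Λ
        · rw [Set.indicator_of_mem (show v ∈ {v | T * jac (a i) t v ≤ Λ} from hv), mul_one, mul_comm]
          gcongr
          apply le_min hTN
          rw [ENNReal.le_div_iff_mul_le (Or.inr hΛ0) (Or.inr hΛt)]
          exact hv
        · rw [Set.indicator_of_notMem (show v ∉ {v | T * jac (a i) t v ≤ Λ} from hv), mul_zero, mul_zero]
          exact zero_le

/-- Step H, the core estimate -/
lemma core {N : ℕ} (hN : 1 ≤ N) (μ : Measure V) [μ.IsAddHaarMeasure] (d : ℕ) (hd : 1 ≤ d)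
    (hfr : Module.finrank ℝ V = d) (a : Fin N → V → V)
    (ha : ∀ i, Measurable (a i)) (b w : Fin N → V) (r ζ ε η R : ℝ) (hr : 0 < r)
    (hdf : ∀ i, ∀ᵐ v ∂μ, v ∈ Metric.ball (w i) r → DifferentiableAt ℝ (a i) v)
    (hb : ∀ i, ∀ v ∈ Metric.ball (w i) r, ‖b i - a i v‖ ≤ ε) (hη : ζ + ε + R * r ≤ η) (M : ℕ)
    (I : Set ℝ) (hI : MeasurableSet I) (hIR : ∀ t ∈ I, |t| ≤ R)
    (hM : ∀ᵐ t, t ∈ I → ∀ᵐ x ∂μ,
      {z : Fin N × V | z.2 ∈ Metric.ball (w z.1) r ∧ a z.1 z.2 + t • z.2 = x}.encard ≤ M)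
    (Λ : ℝ) (hΛ0 : 0 < Λ)
    (hΛ : 2 * M * μ (Metric.closedBall 0 η) = ENNReal.ofReal Λ * μ (Metric.ball 0 r))
    (q : ℝ) (hq : 1 + 1 / (d:ℝ) < q) :
    ∫⁻ t in I, ∫⁻ x, (cnt b w ζ t x) ^ q ∂μ ≤ 2 * μ (Metric.closedBall 0 η) * N *
      ENNReal.ofReal (d * (2 * (d * (q - 1) / (d * (q - 1) - 1)) * Λ ^ ((1:ℝ) / d) *
        (N:ℝ) ^ ((q - 1) - 1 / d))) := by
  classical
  have hd0 : (0:ℝ) < d := by exact_mod_cast hd
  have hs : 1 < (d:ℝ) * (q - 1) := by
    have : (d:ℝ) * (1 / d) < d * (q - 1) := by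
      apply mul_lt_mul_of_pos_left _ hd0
      linarith
    rwa [mul_one_div_cancel hd0.ne'] at this
  have hs0 : 0 < q - 1 := by
    by_contra h
    have h' : q - 1 ≤ 0 := not_lt.mp h
    nlinarith
  have hq1 : 1 < q := by linarith
  set m := μ (Metric.ball (0 : V) r) with hm
  have hm0 : m ≠ 0 := (Metric.measure_ball_pos μ 0 hr).ne'
  have hmt : m ≠ ⊤ := measure_ball_lt_top.ne
  have hΛe0 : ENNReal.ofReal Λ ≠ 0 := by simpa using hΛ0
  have hIm := fun i => measurable_inc (a i) (ha i) η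
  have hCm := measurable_cnt b w ζ
  set H : Fin N → ℝ → V → ℝ≥0∞ :=
    fun i t v => (min (N : ℝ≥0∞) (ENNReal.ofReal Λ / jac (a i) t v)) ^ (q - 1) with hH
  have hHm : ∀ i, Measurable (Function.uncurry (H i)) := by
    intro i
    have hJm := measurable_jac (a i)
    have : Measurable (fun p : ℝ × V => (min (N : ℝ≥0∞) (ENNReal.ofReal Λ / jac (a i) p.1 p.2)) ^ (q - 1)) := by
      fun_prop
    exact this
  -- the x integral of the incidence function
  have hincx : ∀ i t v, ∫⁻ x, inc (a i) η t x v ∂μ = μ (Metric.closedBall 0 η) := by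
    intro i t v
    have : ∀ x, inc (a i) η t x v = (Metric.closedBall (a i v + t • v) η).indicator (fun _ => 1) x := by
      intro x
      unfold inc
      by_cases hx : ‖x - (a i v + t • v)‖ ≤ η
      · rw [Set.indicator_of_mem, Set.indicator_of_mem]
        · rw [Metric.mem_closedBall, dist_eq_norm]; exact hx
        · exact hx
      · rw [Set.indicator_of_notMem, Set.indicator_of_notMem]
        · rw [Metric.mem_closedBall, dist_eq_norm]; exact hx
        · exact hx
    simp only [this]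
    rw [lintegral_indicator measurableSet_closedBall, lintegral_one,
      Measure.restrict_apply MeasurableSet.univ, Set.univ_inter, Measure.addHaar_closedBall_center μ]
  -- one slice
  have hslice : ∀ᵐ t ∂(volume.restrict I), ∫⁻ x, (cnt b w ζ t x) ^ q * m ∂μ ≤
      2 * μ (Metric.closedBall 0 η) * ∑ i, ∫⁻ v in Metric.ball (w i) r, H i t v ∂μ := by
    rw [ae_restrict_iff' hI]
    filter_upwards [hM] with t ht htI
    have hHt : ∀ i, Measurable (H i t) := fun i => (hHm i).of_uncurry_left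
    have hinc_xv : ∀ i, Measurable (fun p : V × V => inc (a i) η t p.1 p.2) := fun i =>
      (hIm i).comp (((measurable_const (a := t)).prodMk measurable_fst).prodMk measurable_snd)
    have hprod : ∀ i, Measurable (fun p : V × V => inc (a i) η t p.1 p.2 * H i t p.2) := fun i =>
      (hinc_xv i).mul ((hHt i).comp measurable_snd)
    calc ∫⁻ x, (cnt b w ζ t x) ^ q * m ∂μ
        ≤ ∫⁻ x, 2 * ∑ i, ∫⁻ v in Metric.ball (w i) r, inc (a i) η t x v * H i t v ∂μ ∂μ := by
          apply lintegral_mono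
          intro x
          exact stepF μ a ha b w r ζ ε η R hdf hb hη M t (hIR t htI) (ht htI) x
            (ENNReal.ofReal Λ) hΛe0 ENNReal.ofReal_ne_top hΛ q hq1
      _ = 2 * ∫⁻ x, ∑ i, ∫⁻ v in Metric.ball (w i) r, inc (a i) η t x v * H i t v ∂μ ∂μ := by
          rw [lintegral_const_mul']
          exact ENNReal.ofNat_ne_top
      _ = 2 * ∑ i, ∫⁻ x, ∫⁻ v in Metric.ball (w i) r, inc (a i) η t x v * H i t v ∂μ ∂μ := by
          rw [lintegral_finsetSum]
          intro i _
          exact (hprod i).lintegral_prod_right'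
      _ = 2 * ∑ i, ∫⁻ v in Metric.ball (w i) r, ∫⁻ x, inc (a i) η t x v * H i t v ∂μ ∂μ := by
          congr 1
          apply Finset.sum_congr rfl
          intro i _
          rw [lintegral_lintegral_swap]
          exact (hprod i).aemeasurable
      _ = 2 * ∑ i, ∫⁻ v in Metric.ball (w i) r, μ (Metric.closedBall 0 η) * H i t v ∂μ := by
          congr 1
          apply Finset.sum_congr rfl
          intro i _
          congr 1
          ext v
          rw [lintegral_mul_const, hincx]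
          exact (hinc_xv i).comp (measurable_id.prodMk measurable_const)
      _ = 2 * μ (Metric.closedBall 0 η) * ∑ i, ∫⁻ v in Metric.ball (w i) r, H i t v ∂μ := by
          have : ∀ i, ∫⁻ v in Metric.ball (w i) r, μ (Metric.closedBall 0 η) * H i t v ∂μ =
              μ (Metric.closedBall 0 η) * ∫⁻ v in Metric.ball (w i) r, H i t v ∂μ := fun i =>
            lintegral_const_mul _ (hHt i)
          simp only [this]
          rw [← Finset.mul_sum, mul_assoc]
  set Gc : ℝ≥0∞ := ENNReal.ofReal (d * (2 * (d * (q - 1) / (d * (q - 1) - 1)) *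
      Λ ^ ((1:ℝ) / d) * (N:ℝ) ^ ((q - 1) - 1 / d))) with hGc
  have hG : ∀ i v, ∫⁻ t in I, H i t v ≤ Gc := by
    intro i v
    have hN' : (0:ℝ) < N := by exact_mod_cast hN
    have := lintegral_det (fderiv ℝ (a i) v) (q - 1) Λ N d hd hfr hs hs0 hΛ0 hN'
    refine (setLIntegral_le_lintegral _ _).trans ?_
    simp only [ENNReal.ofReal_natCast] at this
    exact this
  have htot : (∫⁻ t in I, ∫⁻ x, (cnt b w ζ t x) ^ q ∂μ) * m ≤
      (2 * μ (Metric.closedBall 0 η) * N * Gc) * m := by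
    have hcb : μ (Metric.closedBall (0:V) η) ≠ ⊤ := measure_closedBall_lt_top.ne
    calc (∫⁻ t in I, ∫⁻ x, (cnt b w ζ t x) ^ q ∂μ) * m
        = ∫⁻ t in I, (∫⁻ x, (cnt b w ζ t x) ^ q * m ∂μ) := by
          rw [← lintegral_mul_const' _ _ hmt]
          congr 1
          ext t
          rw [lintegral_mul_const' _ _ hmt]
      _ ≤ ∫⁻ t in I, (2 * μ (Metric.closedBall 0 η) * ∑ i, ∫⁻ v in Metric.ball (w i) r, H i t v ∂μ) :=
          lintegral_mono_ae hslice
      _ = 2 * μ (Metric.closedBall 0 η) * ∫⁻ t in I, ∑ i, ∫⁻ v in Metric.ball (w i) r, H i t v ∂μ := by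
          rw [lintegral_const_mul']
          exact ENNReal.mul_ne_top ENNReal.ofNat_ne_top hcb
      _ = 2 * μ (Metric.closedBall 0 η) * ∑ i, ∫⁻ t in I, ∫⁻ v in Metric.ball (w i) r, H i t v ∂μ := by
          rw [lintegral_finsetSum]
          intro i _
          exact (hHm i).lintegral_prod_right'
      _ = 2 * μ (Metric.closedBall 0 η) * ∑ i, ∫⁻ v in Metric.ball (w i) r, (∫⁻ t in I, H i t v) ∂μ := by
          congr 1
          apply Finset.sum_congr rfl
          intro i _
          rw [lintegral_lintegral_swap]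
          exact (hHm i).aemeasurable
      _ ≤ 2 * μ (Metric.closedBall 0 η) * ∑ i : Fin N, ∫⁻ v in Metric.ball (w i) r, Gc ∂μ := by
          refine mul_le_mul' le_rfl (Finset.sum_le_sum fun i _ => lintegral_mono fun v => ?_)
          exact hG i v
      _ = 2 * μ (Metric.closedBall 0 η) * ∑ i : Fin N, Gc * m := by
          congr 1
          apply Finset.sum_congr rfl
          intro i _
          rw [setLIntegral_const, Measure.addHaar_ball_center μ (w i)]
      _ = _ := by
          rw [Finset.sum_const, Finset.card_univ, Fintype.card_fin, nsmul_eq_mul]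
          ring
  exact (ENNReal.mul_le_mul_iff_left hm0 hmt).mp htot

end Core

section Geometry

/-- forget the coordinate `0` -/
noncomputable def tl {d : ℕ} (p : EuclideanSpace ℝ (Fin (d+1))) : EuclideanSpace ℝ (Fin d) :=
  WithLp.toLp 2 (fun j => p j.succ)

@[simp] lemma tl_apply {d : ℕ} (p : EuclideanSpace ℝ (Fin (d+1))) (j : Fin d) : tl p j = p j.succ := rfl

/-- splitting off the coordinate `0` -/
noncomputable def splitE (d : ℕ) :
    EuclideanSpace ℝ (Fin (d+1)) ≃ᵐ ℝ × EuclideanSpace ℝ (Fin d) :=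
  ((MeasurableEquiv.toLp 2 (Fin (d+1) → ℝ)).symm.trans
    (MeasurableEquiv.piFinSuccAbove (fun _ => ℝ) 0)).trans
   ((MeasurableEquiv.refl ℝ).prodCongr (MeasurableEquiv.toLp 2 (Fin d → ℝ)))

lemma splitE_apply (d : ℕ) (p : EuclideanSpace ℝ (Fin (d+1))) : splitE d p = (p 0, tl p) := by
  rfl

lemma splitE_mp (d : ℕ) : MeasurePreserving (splitE d) (volume) ((volume : Measure ℝ).prod volume) := by
  have h1 : MeasurePreserving (MeasurableEquiv.toLp 2 (Fin (d+1) → ℝ)).symm :=
    EuclideanSpace.volume_preserving_symm_measurableEquiv_toLp (Fin (d+1))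
  have h2 := volume_preserving_piFinSuccAbove (fun _ : Fin (d+1) => ℝ) 0
  have h3 : MeasurePreserving (MeasurableEquiv.toLp 2 (Fin d → ℝ)) :=
    (EuclideanSpace.volume_preserving_symm_measurableEquiv_toLp (Fin d)).symm
  have h4 := (MeasurePreserving.id (volume : Measure ℝ)).prod h3
  exact (h4.comp (h2.comp h1))

lemma norm_sq_split {d : ℕ} (p : EuclideanSpace ℝ (Fin (d+1))) : ‖p‖ ^ 2 = (p 0) ^ 2 + ‖tl p‖ ^ 2 := by
  rw [EuclideanSpace.norm_sq_eq, EuclideanSpace.norm_sq_eq, Fin.sum_univ_succ]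
  simp

lemma norm_tl_le {d : ℕ} (p : EuclideanSpace ℝ (Fin (d+1))) : ‖tl p‖ ≤ ‖p‖ := by
  have := norm_sq_split p
  apply le_of_sq_le_sq _ (norm_nonneg _)
  nlinarith [sq_nonneg (p 0)]

lemma abs_zero_le {d : ℕ} (p : EuclideanSpace ℝ (Fin (d+1))) : |p 0| ≤ ‖p‖ := by
  have := norm_sq_split p
  apply abs_le_of_sq_le_sq _ (norm_nonneg _)
  nlinarith [sq_nonneg ‖tl p‖]


/-- directions -/
lemma sep_aux {d : ℕ} (e e' : EuclideanSpace ℝ (Fin (d+1))) (he : ‖e‖ = 1) (he' : ‖e'‖ = 1)
    (w w' : EuclideanSpace ℝ (Fin d)) (hw : ∀ j : Fin d, e j.succ = e 0 * w j)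
    (hw' : ∀ j : Fin d, e' j.succ = e' 0 * w' j) (hs : 0 < e 0 * e' 0) : ‖e - e'‖ ≤ ‖w - w'‖ := by
  have h0 : e 0 ≠ 0 := fun h => by rw [h, zero_mul] at hs; exact lt_irrefl _ hs
  have h0' : e' 0 ≠ 0 := fun h => by rw [h, mul_zero] at hs; exact lt_irrefl _ hs
  set α := (e 0)⁻¹ with hα
  set β := (e' 0)⁻¹ with hβ
  have hαβ : 1 ≤ α * β := by
    have h1 := abs_zero_le e
    have h2 := abs_zero_le e'
    rw [he] at h1; rw [he'] at h2
    have h3 : |e 0 * e' 0| ≤ 1 := by
      rw [abs_mul]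
      exact mul_le_one₀ h1 (abs_nonneg _) h2
    rw [abs_of_pos hs] at h3
    rw [hα, hβ, ← mul_inv]
    exact (one_le_inv₀ hs).mpr h3
  have h1 : ‖w - w'‖ ^ 2 = ‖α • e - β • e'‖ ^ 2 := by
    rw [norm_sq_split]
    have e1 : (α • e - β • e') 0 = 0 := by
      simp [hα, hβ, inv_mul_cancel₀ h0, inv_mul_cancel₀ h0']
    have e2 : tl (α • e - β • e') = w - w' := by
      ext j
      simp only [tl_apply, PiLp.sub_apply, PiLp.smul_apply, smul_eq_mul, hw, hw', hα, hβ]
      rw [← mul_assoc, ← mul_assoc, inv_mul_cancel₀ h0, inv_mul_cancel₀ h0', one_mul, one_mul]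
    rw [e1, e2]; ring
  have h2 : ‖α • e - β • e'‖ ^ 2 = α ^ 2 + β ^ 2 - 2 * (α * β) * ⟪e, e'⟫_ℝ := by
    rw [norm_sub_sq_real, norm_smul, norm_smul, real_inner_smul_left, real_inner_smul_right, he, he',
      mul_one, mul_one, Real.norm_eq_abs, Real.norm_eq_abs, sq_abs, sq_abs]
    ring
  have h3 : ‖e - e'‖ ^ 2 = 2 - 2 * ⟪e, e'⟫_ℝ := by
    rw [norm_sub_sq_real, he, he']; ring
  have h4 : ⟪e, e'⟫_ℝ ≤ 1 := by
    have := real_inner_le_norm e e'
    rwa [he, he', mul_one] at this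
  apply le_of_sq_le_sq _ (norm_nonneg _)
  rw [h1, h2, h3]
  nlinarith [sq_nonneg (α - β), mul_nonneg (sub_nonneg.mpr hαβ) (sub_nonneg.mpr h4)]


/-- tube geometry -/
lemma tube_aux {d : ℕ} (e c p : EuclideanSpace ℝ (Fin (d+1))) (w : EuclideanSpace ℝ (Fin d)) (δ : ℝ)
    (hw : ∀ j : Fin d, e j.succ = e 0 * w j)
    (hp : ‖p - c - ⟪p - c, e⟫_ℝ • e‖ ≤ δ) :
    ‖tl p - ((tl c - (c 0) • w) + (p 0) • w)‖ ≤ (1 + ‖w‖) * δ := by
  set s := ⟪p - c, e⟫_ℝ with hs
  set z := p - c - s • e with hz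
  have h1 : tl p - ((tl c - (c 0) • w) + (p 0) • w) = tl z - (z 0) • w := by
    ext j
    simp only [tl_apply, PiLp.sub_apply, PiLp.add_apply, PiLp.smul_apply, smul_eq_mul, hz, hw]
    ring
  rw [h1]
  calc ‖tl z - (z 0) • w‖ ≤ ‖tl z‖ + ‖(z 0) • w‖ := norm_sub_le _ _
    _ ≤ δ + δ * ‖w‖ := by
        rw [norm_smul, Real.norm_eq_abs]
        have := norm_tl_le z
        have h0 := abs_zero_le z
        gcongr
        · exact this.trans hp
        · exact h0.trans hp
    _ = (1 + ‖w‖) * δ := by ring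

lemma tl_sub {d : ℕ} (p p' : EuclideanSpace ℝ (Fin (d+1))) : tl (p - p') = tl p - tl p' := by
  ext j; simp

end Geometry

lemma mem_line_iff {d : ℕ} (b v : EuclideanSpace ℝ (Fin d))
    (p : EuclideanSpace ℝ (Fin (d+1))) : p ∈ line b v ↔ b + (p 0) • v = tl p := by
  constructor
  · intro h
    ext j
    simp only [PiLp.add_apply, PiLp.smul_apply, smul_eq_mul, tl_apply]
    exact (h j).symm
  · intro h j
    have := congrArg (fun z => z j) h
    simp only [PiLp.add_apply, PiLp.smul_apply, smul_eq_mul, tl_apply] at this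
    exact this.symm

/-- the volume of the unit ball of `ℝ^d` -/
noncomputable def kap (d : ℕ) : ℝ := (volume (Metric.ball (0 : EuclideanSpace ℝ (Fin d)) 1)).toReal

lemma kap_pos (d : ℕ) : 0 < kap d := by
  unfold kap
  exact ENNReal.toReal_pos (Metric.measure_ball_pos _ _ one_pos).ne' measure_ball_lt_top.ne

lemma vol_ball (d : ℕ) (r : ℝ) (hr : 0 ≤ r) :
    volume (Metric.closedBall (0 : EuclideanSpace ℝ (Fin d)) r) = ENNReal.ofReal (r ^ d * kap d) := by
  rw [Measure.addHaar_closedBall _ _ hr, finrank_euclideanSpace_fin, ENNReal.ofReal_mul (by positivity), kap,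
    ENNReal.ofReal_toReal measure_ball_lt_top.ne]

lemma vol_ball' (d : ℕ) (hd : 1 ≤ d) (r : ℝ) (hr : 0 ≤ r) :
    volume (Metric.ball (0 : EuclideanSpace ℝ (Fin d)) r) = ENNReal.ofReal (r ^ d * kap d) := by
  haveI : Nontrivial (EuclideanSpace ℝ (Fin d)) := by
    apply Module.nontrivial_of_finrank_pos (R := ℝ)
    rw [finrank_euclideanSpace_fin]; omega
  rw [Measure.addHaar_ball _ _ hr, finrank_euclideanSpace_fin, ENNReal.ofReal_mul (by positivity), kap,
    ENNReal.ofReal_toReal measure_ball_lt_top.ne]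

/-- the main estimate, position form -/
lemma main_est {d N : ℕ} (hN : 1 ≤ N) (hd : 1 ≤ d) (q : ℝ) (hq : 1 + 1 / (d:ℝ) < q) (R β : ℝ) (hR : 0 ≤ R)
    (hβR : (1 + R) + R ≤ β)
    (M : ℕ) (hM1 : 1 ≤ M) (I : Set ℝ) (hI : MeasurableSet I) (hIR : ∀ t ∈ I, |t| ≤ R)
    (δ r : ℝ) (hr : 0 < r) (hrδ : r ≤ δ) (c e : Fin N → EuclideanSpace ℝ (Fin (d+1)))
    (w : Fin N → EuclideanSpace ℝ (Fin d))
    (a : Fin N → EuclideanSpace ℝ (Fin d) → EuclideanSpace ℝ (Fin d))
    (hwR : ∀ i, ‖w i‖ ≤ R)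
    (hew : ∀ i, ∀ j : Fin d, e i j.succ = e i 0 * w i j)
    (ha : ∀ i, Measurable (a i))
    (hdf : ∀ i, ∀ᵐ v, v ∈ Metric.ball (w i) r → DifferentiableAt ℝ (a i) v)
    (hc : ∀ i, ∀ v ∈ Metric.ball (w i) r, ‖(tl (c i) - (c i 0) • w i) - a i v‖ ≤ (β - (1 + R) - R) * δ)
    (hI' : ∀ i, ∀ p ∈ tube δ (c i) (e i), p 0 ∈ I)
    (hMt : ∀ᵐ t : ℝ, t ∈ I → ∀ᵐ x : EuclideanSpace ℝ (Fin d),
      {z : Fin N × EuclideanSpace ℝ (Fin d) |
        z.2 ∈ Metric.ball (w z.1) r ∧ a z.1 z.2 + t • z.2 = x}.encard ≤ M) :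
    ∫⁻ p, ‖∑ i, (tube δ (c i) (e i)).indicator (fun _ => (1:ℝ)) p‖ₑ ^ q ≤
      ENNReal.ofReal (4 * kap d * d * (d * (q - 1) / (d * (q - 1) - 1)) * 2 ^ ((1:ℝ)/d) *
        β ^ (d+1) * (δ / r) * M ^ ((1:ℝ)/d) * δ ^ d * (N:ℝ) ^ (q - 1 / d)) := by
  classical
  have hd0 : (0:ℝ) < d := by exact_mod_cast hd
  have hN0 : (0:ℝ) < N := by exact_mod_cast hN
  have hM0 : (0:ℝ) < M := by exact_mod_cast hM1
  have hδ : 0 < δ := hr.trans_le hrδ
  have hq0 : 0 < q := by
    have : 0 < 1 / (d:ℝ) := by positivity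
    linarith
  have hκ := kap_pos d
  have hβ0 : 0 < β := by linarith
  set Λ : ℝ := 2 * M * (β * δ / r) ^ d with hΛ
  have hΛ0 : 0 < Λ := by positivity
  -- positions
  set b : Fin N → EuclideanSpace ℝ (Fin d) := fun i => tl (c i) - (c i 0) • w i with hbdef
  -- pointwise bound
  have hpt : ∀ p : EuclideanSpace ℝ (Fin (d+1)),
      ‖∑ i, (tube δ (c i) (e i)).indicator (fun _ => (1:ℝ)) p‖ₑ ≤
        I.indicator (fun _ => 1) (p 0) * cnt b w ((1 + R) * δ) (p 0) (tl p) := by
    intro p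
    have h1 : ‖∑ i, (tube δ (c i) (e i)).indicator (fun _ => (1:ℝ)) p‖ₑ
        ≤ ∑ i, (tube δ (c i) (e i)).indicator (fun _ => (1:ℝ≥0∞)) p := by
      refine (enorm_sum_le _ _).trans (le_of_eq ?_)
      apply Finset.sum_congr rfl
      intro i _
      by_cases hp : p ∈ tube δ (c i) (e i)
      · simp [hp]
      · simp [hp]
    refine h1.trans ?_
    unfold cnt
    rw [Finset.mul_sum]
    apply Finset.sum_le_sum
    intro i _
    by_cases hp : p ∈ tube δ (c i) (e i)
    · have h2 : p 0 ∈ I := hI' i p hp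
      have h3 : ‖tl p - (b i + (p 0) • w i)‖ ≤ (1 + R) * δ := by
        refine (tube_aux (e i) (c i) p (w i) δ (hew i) hp.2).trans ?_
        have := hwR i
        gcongr
      rw [Set.indicator_of_mem hp, Set.indicator_of_mem h2, Set.indicator_of_mem
        (show ((p 0, tl p) : ℝ × EuclideanSpace ℝ (Fin d)) ∈ {p : ℝ × EuclideanSpace ℝ (Fin d) |
          ‖p.2 - (b i + p.1 • w i)‖ ≤ (1 + R) * δ} from h3), one_mul]
    · rw [Set.indicator_of_notMem hp]
      exact zero_le
  -- transfer to the product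
  set g : ℝ × EuclideanSpace ℝ (Fin d) → ℝ≥0∞ :=
    fun z => I.indicator (fun _ => 1) z.1 * (cnt b w ((1 + R) * δ) z.1 z.2) ^ q with hg
  have hcm := measurable_cnt b w ((1 + R) * δ)
  have hgm : Measurable g := by
    apply Measurable.mul
    · exact (measurable_const.indicator hI).comp measurable_fst
    · exact hcm.pow_const q
  have hstep1 : ∫⁻ p, ‖∑ i, (tube δ (c i) (e i)).indicator (fun _ => (1:ℝ)) p‖ₑ ^ q ≤
      ∫⁻ t in I, ∫⁻ x, (cnt b w ((1 + R) * δ) t x) ^ q := by
    calc ∫⁻ p, ‖∑ i, (tube δ (c i) (e i)).indicator (fun _ => (1:ℝ)) p‖ₑ ^ q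
        ≤ ∫⁻ p, g (splitE d p) := by
          apply lintegral_mono
          intro p
          show _ ≤ g (splitE d p)
          rw [splitE_apply]
          refine (ENNReal.rpow_le_rpow (hpt p) hq0.le).trans (le_of_eq ?_)
          rw [ENNReal.mul_rpow_of_nonneg _ _ hq0.le]
          simp only [hg]
          congr 1
          by_cases hp : p 0 ∈ I
          · simp [hp]
          · simp [hp, hq0]
      _ = ∫⁻ z, g z ∂((volume : Measure ℝ).prod volume) :=
          (splitE_mp d).lintegral_comp hgm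
      _ = ∫⁻ t, ∫⁻ x, g (t, x) := by
          rw [lintegral_prod _ hgm.aemeasurable]
      _ = ∫⁻ t, I.indicator (fun t => ∫⁻ x, (cnt b w ((1 + R) * δ) t x) ^ q) t := by
          apply lintegral_congr
          intro t
          by_cases ht : t ∈ I
          · simp [hg, ht]
          · simp [hg, ht]
      _ = ∫⁻ t in I, ∫⁻ x, (cnt b w ((1 + R) * δ) t x) ^ q := by
          rw [lintegral_indicator hI]
  have hcore := core hN (volume : Measure (EuclideanSpace ℝ (Fin d))) d hd (finrank_euclideanSpace_fin)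
    a ha b w r ((1 + R) * δ) ((β - (1 + R) - R) * δ) (β * δ) R hr hdf hc (by
      have h1 : R * r ≤ R * δ := mul_le_mul_of_nonneg_left hrδ hR
      nlinarith) M I hI hIR hMt Λ hΛ0 (by
      rw [vol_ball d _ (by positivity), vol_ball' d hd _ (by positivity), ← ENNReal.ofReal_mul hΛ0.le]
      have e1 : (2 * (M : ℝ≥0∞)) = ENNReal.ofReal (2 * M) := by
        rw [ENNReal.ofReal_mul (by norm_num), ENNReal.ofReal_natCast]
        simp
      rw [e1, ← ENNReal.ofReal_mul (by positivity)]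
      congr 1
      rw [hΛ, div_pow]
      field_simp) q hq
  refine (hstep1.trans hcore).trans (le_of_eq ?_)
  rw [vol_ball d _ (by positivity), ← ENNReal.ofReal_natCast (n := N)]
  have e2 : (2 : ℝ≥0∞) = ENNReal.ofReal 2 := by simp
  have hds : 0 < (d:ℝ) * (q - 1) - 1 := by
    have : (d:ℝ) * (1 / d) < d * (q - 1) := by
      apply mul_lt_mul_of_pos_left _ hd0
      linarith
    rw [mul_one_div_cancel hd0.ne'] at this
    linarith
  have hq1 : 0 < q - 1 := by
    by_contra h
    have h' : q - 1 ≤ 0 := not_lt.mp h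
    nlinarith
  rw [e2, ← ENNReal.ofReal_mul (by positivity), ← ENNReal.ofReal_mul (by positivity),
    ← ENNReal.ofReal_mul (by positivity)]
  congr 1
  have e3 : Λ ^ ((1:ℝ) / d) = 2 ^ ((1:ℝ)/d) * M ^ ((1:ℝ)/d) * (β * δ / r) := by
    rw [hΛ, Real.mul_rpow (by positivity) (by positivity), Real.mul_rpow (by positivity) (by positivity),
      ← Real.rpow_natCast (β * δ / r) d, ← Real.rpow_mul (by positivity), mul_one_div_cancel hd0.ne',
      Real.rpow_one]
  have e4 : (N:ℝ) ^ (q - 1 / d) = N * (N:ℝ) ^ (q - 1 - 1 / d) := by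
    rw [show q - 1 / (d:ℝ) = 1 + (q - 1 - 1 / d) by ring, Real.rpow_add hN0, Real.rpow_one]
  rw [e3, e4, mul_pow β δ]
  ring


section Smooth
open Nat

/-- corner of the grid cell with index `j` -/
noncomputable def gridpt {d : ℕ} (h : ℝ) (j : Fin d → ℤ) : EuclideanSpace ℝ (Fin d) :=
  WithLp.toLp 2 (fun l => h * j l)

/-- index of the grid cell of `v` -/
noncomputable def cell {d : ℕ} (h : ℝ) (v : EuclideanSpace ℝ (Fin d)) : Fin d → ℤ := fun l => ⌊v l / h⌋

lemma norm_sub_gridpt {d : ℕ} (hd : 1 ≤ d) (h : ℝ) (hh : 0 < h) (v : EuclideanSpace ℝ (Fin d)) :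
    ‖v - gridpt h (cell h v)‖ ≤ d * h := by
  apply le_of_sq_le_sq _ (by positivity)
  rw [EuclideanSpace.norm_sq_eq]
  have h1 : ∀ l : Fin d, ‖(v - gridpt h (cell h v)) l‖ ^ 2 ≤ h ^ 2 := by
    intro l
    have e1 : (v - gridpt h (cell h v)) l = v l - h * ⌊v l / h⌋ := rfl
    rw [e1, Real.norm_eq_abs, sq_abs]
    have f1 := Int.floor_le (v l / h)
    have f2 := Int.lt_floor_add_one (v l / h)
    have g1 : h * (⌊v l / h⌋ : ℝ) ≤ v l := by
      have := mul_le_mul_of_nonneg_left f1 hh.le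
      rwa [mul_div_cancel₀ _ hh.ne'] at this
    have g2 : v l < h * (⌊v l / h⌋ : ℝ) + h := by
      have := mul_lt_mul_of_pos_left f2 hh
      rw [mul_div_cancel₀ _ hh.ne'] at this
      linarith
    nlinarith
  calc ∑ l, ‖(v - gridpt h (cell h v)) l‖ ^ 2 ≤ ∑ _l : Fin d, h ^ 2 := Finset.sum_le_sum fun l _ => h1 l
    _ = d * h ^ 2 := by simp
    _ ≤ (d * h) ^ 2 := by
        have : (1:ℝ) ≤ d := by exact_mod_cast hd
        nlinarith [sq_nonneg h, mul_nonneg (sub_nonneg.mpr this) (sq_nonneg h)]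

/-- the cells meeting the ball of radius `R` -/
noncomputable def cells (d : ℕ) (h R : ℝ) : Finset (Fin d → ℤ) :=
  Fintype.piFinset (fun _ => Finset.Icc (-⌈R / h⌉) ⌈R / h⌉)

lemma cell_mem {d : ℕ} (h R : ℝ) (hh : 0 < h) (v : EuclideanSpace ℝ (Fin d)) (hv : ‖v‖ ≤ R) :
    cell h v ∈ cells d h R := by
  unfold cells
  rw [Fintype.mem_piFinset]
  intro l
  rw [Finset.mem_Icc]
  have h1 : |v l| ≤ R := by
    have := PiLp.norm_apply_le v l
    rw [Real.norm_eq_abs] at this
    exact this.trans hv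
  have h2 := abs_le.mp h1
  constructor
  · unfold cell
    rw [Int.le_floor]
    push_cast
    have := Int.le_ceil (R / h)
    have h3 : -(R / h) ≤ v l / h := by
      rw [← neg_div]
      exact div_le_div_of_nonneg_right h2.1 hh.le
    linarith
  · unfold cell
    have h3 : v l / h ≤ R / h := div_le_div_of_nonneg_right h2.2 hh.le
    have h4 : ⌊v l / h⌋ ≤ ⌈v l / h⌉ := Int.floor_le_ceil _
    exact h4.trans (Int.ceil_le_ceil h3)

lemma card_cells (d : ℕ) (h R : ℝ) (hh : 0 < h) (hR : 0 ≤ R) :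
    ((cells d h R).card : ℝ) ≤ (2 * (R / h) + 3) ^ d := by
  unfold cells
  rw [Fintype.card_piFinset, Finset.prod_const, Finset.card_univ, Fintype.card_fin, Int.card_Icc]
  push_cast
  apply pow_le_pow_left₀ (by positivity)
  have h0 : 0 ≤ ⌈R / h⌉ := Int.ceil_nonneg (by positivity)
  have h1 : ((⌈R / h⌉ + 1 - -⌈R / h⌉).toNat : ℤ) = ⌈R / h⌉ + 1 - -⌈R / h⌉ := Int.toNat_of_nonneg (by omega)
  have h2 : ((⌈R / h⌉ + 1 - -⌈R / h⌉).toNat : ℝ) = 2 * ⌈R / h⌉ + 1 := by
    have : ((⌈R / h⌉ + 1 - -⌈R / h⌉).toNat : ℝ) = (((⌈R / h⌉ + 1 - -⌈R / h⌉).toNat : ℤ) : ℝ) := by push_cast; rfl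
    rw [this, h1]; push_cast; ring
  rw [h2]
  have := Int.ceil_lt_add_one (R / h)
  linarith

end Smooth


section Mult

lemma ezero_ne {d : ℕ} (e : EuclideanSpace ℝ (Fin (d+1))) (w : EuclideanSpace ℝ (Fin d)) (he : ‖e‖ = 1)
    (hw : ∀ j : Fin d, e j.succ = e 0 * w j) : e 0 ≠ 0 := by
  intro h0
  have h1 : e = 0 := by
    ext k
    refine Fin.cases ?_ (fun j => ?_) k
    · exact h0
    · rw [hw j, h0, zero_mul]; rfl
  rw [h1, norm_zero] at he
  exact zero_ne_one he

lemma mult_cells {d N : ℕ} {κ : Type*} (δ r : ℝ) (hr : r ≤ δ / 2) (e : Fin N → EuclideanSpace ℝ (Fin (d+1)))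
    (w : Fin N → EuclideanSpace ℝ (Fin d)) (he : ∀ i, ‖e i‖ = 1)
    (hw : ∀ i, ∀ j : Fin d, (e i) j.succ = (e i) 0 * w i j)
    (hsep : ∀ i j, i ≠ j → δ ≤ ‖e i - e j‖) (J : Finset κ) (j : Fin N → κ) (hj : ∀ i, j i ∈ J)
    (P : κ → EuclideanSpace ℝ (Fin d) → EuclideanSpace ℝ (Fin d)) (t : ℝ) (x : EuclideanSpace ℝ (Fin d))
    (m0 : ℕ) (hP : ∀ k ∈ J, {v | P k v + t • v = x}.encard ≤ m0) :
    {z : Fin N × EuclideanSpace ℝ (Fin d) |
      z.2 ∈ Metric.ball (w z.1) r ∧ P (j z.1) z.2 + t • z.2 = x}.encard ≤ (2 * (J.card * m0) : ℕ) := by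
  classical
  set Z := {z : Fin N × EuclideanSpace ℝ (Fin d) |
      z.2 ∈ Metric.ball (w z.1) r ∧ P (j z.1) z.2 + t • z.2 = x} with hZ
  have hfin : ∀ k ∈ J, {v | P k v + t • v = x}.Finite := fun k hk =>
    Set.finite_of_encard_le_coe (hP k hk)
  let fib : κ → Finset (EuclideanSpace ℝ (Fin d)) := fun k =>
    if hk : k ∈ J then (hfin k hk).toFinset else ∅
  have hfib : ∀ k ∈ J, ∀ v, v ∈ fib k ↔ P k v + t • v = x := by
    intro k hk v
    simp [fib, hk]
  have hfibc : ∀ k ∈ J, (fib k).card ≤ m0 := by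
    intro k hk
    have h1 := hP k hk
    rw [(hfin k hk).encard_eq_coe_toFinset_card] at h1
    have h2 : (fib k).card = (hfin k hk).toFinset.card := by simp [fib, hk]
    rw [h2]
    exact_mod_cast h1
  let T : Finset (κ × EuclideanSpace ℝ (Fin d)) := J.biUnion (fun k => (fib k).image (fun v => (k, v)))
  have hT : T.card ≤ J.card * m0 := by
    apply Finset.card_biUnion_le_card_mul
    intro k hk
    exact Finset.card_image_le.trans (hfibc k hk)
  let φ : Fin N × EuclideanSpace ℝ (Fin d) → κ × EuclideanSpace ℝ (Fin d) := fun z => (j z.1, z.2)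
  have hφT : ∀ z ∈ Z, φ z ∈ (T : Set (κ × EuclideanSpace ℝ (Fin d))) := by
    intro z hz
    simp only [T, Finset.coe_biUnion, Set.mem_iUnion, Finset.coe_image, Set.mem_image]
    exact ⟨j z.1, hj z.1, z.2, (hfib _ (hj z.1) z.2).mpr hz.2, rfl⟩
  have key : ∀ A : Set (Fin N), (∀ i ∈ A, ∀ i' ∈ A, 0 < e i 0 * e i' 0) →
      (Z ∩ {z | z.1 ∈ A}).encard ≤ (J.card * m0 : ℕ) := by
    intro A hA
    have hinj : Set.InjOn φ (Z ∩ {z | z.1 ∈ A}) := by
      rintro ⟨i, v⟩ ⟨hz, hzA⟩ ⟨i', v'⟩ ⟨hz', hzA'⟩ heq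
      have hv : v = v' := congrArg Prod.snd heq
      subst hv
      have hvi : dist v (w i) < r := hz.1
      have hvi' : dist v (w i') < r := hz'.1
      by_contra hne
      have hii : i ≠ i' := fun h => hne (by rw [h])
      have h1 := sep_aux (e i) (e i') (he i) (he i') (w i) (w i') (hw i) (hw i') (hA i hzA i' hzA')
      have h2 := hsep i i' hii
      have h3 : ‖w i - w i'‖ < δ := by
        rw [← dist_eq_norm]
        calc dist (w i) (w i') ≤ dist (w i) v + dist v (w i') := dist_triangle _ _ _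
          _ = dist v (w i) + dist v (w i') := by rw [dist_comm]
          _ < δ := by linarith
      linarith
    rw [← hinj.encard_image]
    calc (φ '' (Z ∩ {z | z.1 ∈ A})).encard ≤ (T : Set (κ × EuclideanSpace ℝ (Fin d))).encard := by
          apply Set.encard_mono
          rintro _ ⟨z, hz, rfl⟩
          exact hφT z hz.1
      _ = (T.card : ℕ∞) := Set.encard_coe_eq_coe_finsetCard T
      _ ≤ _ := by exact_mod_cast hT
  have h1 := key {i | 0 < e i 0} (fun i hi i' hi' => mul_pos hi hi')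
  have h2 := key {i | e i 0 < 0} (fun i hi i' hi' => mul_pos_of_neg_of_neg hi hi')
  have hcov : Z ⊆ (Z ∩ {z | z.1 ∈ {i | 0 < e i 0}}) ∪ (Z ∩ {z | z.1 ∈ {i | e i 0 < 0}}) := by
    intro z hz
    rcases lt_or_gt_of_ne (ezero_ne (e z.1) (w z.1) (he z.1) (hw z.1)) with h | h
    · exact Or.inr ⟨hz, h⟩
    · exact Or.inl ⟨hz, h⟩
  calc Z.encard ≤ _ := Set.encard_mono hcov
    _ ≤ _ + _ := Set.encard_union_le _ _
    _ ≤ (J.card * m0 : ℕ) + (J.card * m0 : ℕ) := add_le_add h1 h2
    _ = _ := by push_cast; ring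

end Mult

end Pool.Agent.H27.Kakeya
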