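import Mathlib
import Pool.Agent.H27.KakeyaDefs
import Pool.Agent.H27.KakeyaCore

namespace Pool.Agent.H27.KakeyaBundleOrder

open MeasureTheory Set Pool.Agent.H27.Kakeya
open scoped ENNReal NNReal Topology InnerProductSpace

/-- **Theorem (Kakeya inequality for tubes carrying bundles of lines of bounded total order).**
Let `d ≥ 1`, `n = d + 1`, `q > n / (n - 1) = 1 + 1 / d` and `R ≥ 0`. There is `C = C(d, q, R)` with the
following property. Let `0 < r ≤ δ < 1` and let `T_1, …, T_N` be `δ`-tubes in the slab `{p | p 0 ∈ I}`,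
`I ⊆ [-R, R]` measurable; let `(1, w i)`, `‖w i‖ ≤ R`, be parallel to the axis of `T_i`. Suppose that for
every `i` and every slope `v ∈ ball (w i) r` we are given a line `line (a i v) v = {(t, a i v + t v)}`
passing within `R δ` of the centre of `T_i`, where `a i` is measurable and differentiable almost everywhere
in `ball (w i) r`. If almost every point of the slab lies on at most `M` of all these lines, then
`‖∑ 1_{T_i}‖_q ≤ C (δ / r)^{1/q} M^{1/(q(n-1))} δ^{(n-1)/q} N^{1 - 1/(q(n-1))}`. -/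
theorem result (d : ℕ) (hd : 1 ≤ d) (q : ℝ) (hq : 1 + 1 / (d:ℝ) < q) (R : ℝ) (hR : 0 ≤ R) :
    ∃ C : ℝ, ∀ (M : ℕ), 1 ≤ M → ∀ I : Set ℝ, MeasurableSet I → (∀ t ∈ I, |t| ≤ R) →
    ∀ δ r : ℝ, 0 < r → r ≤ δ → δ < 1 → ∀ (N : ℕ) (c e : Fin N → EuclideanSpace ℝ (Fin (d+1)))
      (w : Fin N → EuclideanSpace ℝ (Fin d))
      (a : Fin N → EuclideanSpace ℝ (Fin d) → EuclideanSpace ℝ (Fin d)),
      (∀ i, ‖e i‖ = 1) → (∀ i, ∀ j : Fin d, e i j.succ = e i 0 * w i j) → (∀ i, ‖w i‖ ≤ R) →
      (∀ i, ∀ p ∈ tube δ (c i) (e i), p 0 ∈ I) →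
      (∀ i, Measurable (a i)) →
      (∀ i, ∀ᵐ v, v ∈ Metric.ball (w i) r → DifferentiableAt ℝ (a i) v) →
      (∀ i, ∀ v ∈ Metric.ball (w i) r, ∃ p ∈ line (a i v) v, ‖c i - p‖ ≤ R * δ) →
      (∀ᵐ p : EuclideanSpace ℝ (Fin (d+1)), p 0 ∈ I →
        {z : Fin N × EuclideanSpace ℝ (Fin d) |
          z.2 ∈ Metric.ball (w z.1) r ∧ p ∈ line (a z.1 z.2) z.2}.encard ≤ M) →
      eLpNorm (fun x => ∑ i, (tube δ (c i) (e i)).indicator (fun _ => (1:ℝ)) x) (ENNReal.ofReal q) volume
        ≤ ENNReal.ofReal (C * (δ / r) ^ (1 / q) * M ^ (1 / (q * d)) * δ ^ (d / q) *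
            (N:ℝ) ^ (1 - 1 / (q * d))) := by
  have hd0 : (0:ℝ) < d := by exact_mod_cast hd
  have hq0 : 0 < q := by
    have : 0 < 1 / (d:ℝ) := by positivity
    linarith
  have hds : 0 < (d:ℝ) * (q - 1) - 1 := by
    have : (d:ℝ) * (1 / d) < d * (q - 1) := by
      apply mul_lt_mul_of_pos_left _ hd0
      linarith
    rw [mul_one_div_cancel hd0.ne'] at this
    linarith
  have hq1 : 0 < q - 1 := by
    by_contra h
    have h' : q - 1 ≤ 0 := not_lt.mp h
    nlinarith
  have hκ := kap_pos d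
  set β : ℝ := (1 + R) + R + (R ^ 2 + 3 * R) with hβ
  have hβ0 : 0 < β := by positivity
  set C0 : ℝ := 4 * kap d * d * (d * (q - 1) / (d * (q - 1) - 1)) * 2 ^ ((1:ℝ)/d) * β ^ (d+1) with hC0
  have hC0p : 0 < C0 := by positivity
  refine ⟨C0 ^ (1 / q), ?_⟩
  intro M hM1 I hI hIR δ r hr hrδ hδ1 N c e w a he hew hwR hI' ha hdf hc hM
  have hδ : 0 < δ := hr.trans_le hrδ
  rw [eLpNorm_eq_lintegral_rpow_enorm_toReal (by simpa using hq0) ENNReal.ofReal_ne_top,
    ENNReal.toReal_ofReal hq0.le]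
  rcases Nat.eq_zero_or_pos N with hN | hN
  · subst hN
    simp [hq0]
  have hN0 : (0:ℝ) < N := by exact_mod_cast hN
  have hM0 : (0:ℝ) < M := by exact_mod_cast hM1
  have hc' : ∀ i, ∀ v ∈ Metric.ball (w i) r, ‖(tl (c i) - (c i 0) • w i) - a i v‖ ≤ (β - (1 + R) - R) * δ := by
    intro i v hv
    obtain ⟨p, hp, hcp⟩ := hc i v hv
    rw [mem_line_iff] at hp
    have hc0 : |c i 0| ≤ R := by
      apply hIR
      apply hI' i
      refine ⟨?_, ?_⟩
      · simp
      · simpa using hδ.le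
    have h0 : |c i 0 - p 0| ≤ R * δ := by
      have := abs_zero_le (c i - p)
      exact (this.trans hcp)
    have hp0 : |p 0| ≤ 2 * R := by
      have h1 : |p 0| ≤ |c i 0| + |c i 0 - p 0| := by
        have : p 0 = c i 0 - (c i 0 - p 0) := by ring
        calc |p 0| = |c i 0 - (c i 0 - p 0)| := by rw [← this]
          _ ≤ _ := abs_sub _ _
      have h2 : R * δ ≤ R := mul_le_of_le_one_right hR hδ1.le
      linarith
    have h1 : ‖tl (c i) - tl p‖ ≤ R * δ := by
      rw [← tl_sub]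
      exact (norm_tl_le _).trans hcp
    have hvw : ‖v - w i‖ ≤ δ := by
      rw [← dist_eq_norm]
      exact (Metric.mem_ball.mp hv).le.trans hrδ
    have hkey : (tl (c i) - (c i 0) • w i) - a i v
        = (tl (c i) - tl p) + (p 0 - c i 0) • w i + (p 0) • (v - w i) := by
      rw [← hp, sub_smul, smul_sub]
      abel
    rw [hkey]
    calc ‖(tl (c i) - tl p) + (p 0 - c i 0) • w i + (p 0) • (v - w i)‖
        ≤ ‖tl (c i) - tl p‖ + ‖(p 0 - c i 0) • w i‖ + ‖(p 0) • (v - w i)‖ := norm_add₃_le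
      _ ≤ R * δ + R * δ * R + 2 * R * δ := by
          rw [norm_smul, norm_smul, Real.norm_eq_abs, Real.norm_eq_abs, abs_sub_comm (p 0)]
          have := hwR i
          gcongr
      _ = (β - (1 + R) - R) * δ := by rw [hβ]; ring
  have hMt : ∀ᵐ t : ℝ, t ∈ I → ∀ᵐ x : EuclideanSpace ℝ (Fin d),
      {z : Fin N × EuclideanSpace ℝ (Fin d) |
        z.2 ∈ Metric.ball (w z.1) r ∧ a z.1 z.2 + t • z.2 = x}.encard ≤ M := by
    have h1 : ∀ᵐ y ∂((volume : Measure ℝ).prod (volume : Measure (EuclideanSpace ℝ (Fin d)))),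
        y.1 ∈ I → {z : Fin N × EuclideanSpace ℝ (Fin d) |
          z.2 ∈ Metric.ball (w z.1) r ∧ a z.1 z.2 + y.1 • z.2 = y.2}.encard ≤ M := by
      have h2 := (splitE_mp d).symm.quasiMeasurePreserving.ae hM
      filter_upwards [h2] with y hy hyI
      set p := (splitE d).symm y with hp
      have h3 : splitE d p = y := (splitE d).apply_symm_apply y
      rw [splitE_apply] at h3
      have h4 : p 0 = y.1 := congrArg Prod.fst h3
      have h5 : tl p = y.2 := congrArg Prod.snd h3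
      have h6 := hy (h4 ▸ hyI)
      refine le_trans (le_of_eq ?_) h6
      congr 1
      ext z
      simp only [Set.mem_ofPred_eq, mem_line_iff, h4, h5]
    have h2 := Measure.ae_ae_of_ae_prod h1
    filter_upwards [h2] with t ht htI
    filter_upwards [ht] with x hx
    exact hx htI
  have hmain := main_est hN hd q hq R β hR (by rw [hβ]; nlinarith [sq_nonneg R]) M hM1 I hI hIR δ r hr hrδ
    c e w a hwR hew ha hdf hc' hI' hMt
  refine (ENNReal.rpow_le_rpow hmain (by positivity)).trans (le_of_eq ?_)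
  rw [← hC0, ENNReal.ofReal_rpow_of_pos (by positivity)]
  congr 1
  rw [Real.mul_rpow (by positivity) (by positivity), Real.mul_rpow (by positivity) (by positivity),
    Real.mul_rpow (by positivity) (by positivity), Real.mul_rpow (by positivity) (by positivity),
    ← Real.rpow_natCast, ← Real.rpow_mul (by positivity), ← Real.rpow_mul (by positivity),
    ← Real.rpow_mul (by positivity)]
  congr 1
  · congr 1
    · congr 2
      field_simp
    · congr 1
      field_simp
  · congr 1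
    field_simp

end Pool.Agent.H27.KakeyaBundleOrder
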