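import Mathlib
import Pool.Agent.H27.KakeyaDefs
import Pool.Agent.H27.KakeyaCore

namespace Pool.Agent.H27.KakeyaSmoothCongruence

open MeasureTheory Set Pool.Agent.H27.Kakeya
open scoped ENNReal NNReal Topology InnerProductSpace

/-- **Theorem (Kakeya inequality for smooth line congruences).**
Let `d ≥ 1`, `n = d + 1`, `q > n / (n - 1) = 1 + 1 / d` and `R ≥ 0`. There is `C = C(d, q, R)` with the
following property. Let `a` be an `L`-Lipschitz `C^k` map on the ball of radius `R + 1` of `ℝ^d`, and let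
`0 < δ ≤ s ≤ 1` be such that `s^k sup ‖D^k a‖ ≤ k! δ`. Let `T_1, …, T_N` be `δ`-tubes with
`δ`-separated orientations, the axis of `T_i` being parallel to the line `{(t, a (w i) + t (w i))}`,
`‖w i‖ ≤ R`, and the centre of `T_i` lying within `R δ` of this line at a height in `[-R, R]`. Then
`‖∑ 1_{T_i}‖_q ≤ C ((1 + L) k / s)^{1/q} δ^{(n-1)/q} N^{1 - 1/(q(n-1))}`. -/
theorem result (d : ℕ) (hd : 1 ≤ d) (q : ℝ) (hq : 1 + 1 / (d:ℝ) < q) (R : ℝ) (hR : 0 ≤ R) :
    ∃ C : ℝ, ∀ (L : ℝ≥0) (k : ℕ), 1 ≤ k → ∀ δ s B : ℝ, 0 < δ → δ ≤ s → s ≤ 1 →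
    B * s ^ k ≤ k.factorial * δ →
    ∀ a : EuclideanSpace ℝ (Fin d) → EuclideanSpace ℝ (Fin d),
      LipschitzOnWith L a (Metric.ball 0 (R + 1)) → ContDiffOn ℝ k a (Metric.ball 0 (R + 1)) →
      (∀ v ∈ Metric.ball (0 : EuclideanSpace ℝ (Fin d)) (R + 1), ‖iteratedFDeriv ℝ k a v‖ ≤ B) →
    ∀ (N : ℕ) (c e : Fin N → EuclideanSpace ℝ (Fin (d+1))) (w : Fin N → EuclideanSpace ℝ (Fin d)),
      (∀ i, ‖e i‖ = 1) → (∀ i j, i ≠ j → δ ≤ ‖e i - e j‖) →
      (∀ i, ∀ j : Fin d, e i j.succ = e i 0 * w i j) → (∀ i, ‖w i‖ ≤ R) →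
      (∀ i, ∃ p ∈ line (a (w i)) (w i), ‖c i - p‖ ≤ R * δ) → (∀ i, |c i 0| ≤ R) →
      eLpNorm (fun x => ∑ i, (tube δ (c i) (e i)).indicator (fun _ => (1:ℝ)) x) (ENNReal.ofReal q) volume
        ≤ ENNReal.ofReal (C * ((1 + L) * k / s) ^ (1 / q) * δ ^ (d / q) *
            (N:ℝ) ^ (1 - 1 / (q * d))) := by
  have hd0 : (0:ℝ) < d := by exact_mod_cast hd
  have hd1 : (1:ℝ) ≤ d := by exact_mod_cast hd
  have hq0 : 0 < q := by
    have : 0 < 1 / (d:ℝ) := by positivity
    linarith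
  have hds : 0 < (d:ℝ) * (q - 1) - 1 := by
    have : (d:ℝ) * (1 / d) < d * (q - 1) := by
      apply mul_lt_mul_of_pos_left _ hd0
      linarith
    rw [mul_one_div_cancel hd0.ne'] at this
    linarith
  have hq1 : 0 < q - 1 := by
    by_contra h
    have h' : q - 1 ≤ 0 := not_lt.mp h
    nlinarith
  have hκ := kap_pos d
  set R' : ℝ := R + 2 with hR'
  set β : ℝ := (1 + R') + R' + (2 + (1 + R) * R) with hβ
  have hβ0 : 0 < β := by positivity
  set C0 : ℝ := 4 * kap d * d * (d * (q - 1) / (d * (q - 1) - 1)) * 2 ^ ((1:ℝ)/d) * β ^ (d+1) with hC0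
  have hC0p : 0 < C0 := by positivity
  set C1 : ℝ := C0 * (4 * (4 * d * (8 * d * R + 3))) with hC1
  have hC1p : 0 < C1 := by positivity
  refine ⟨C1 ^ (1 / q), ?_⟩
  intro L k hk δ s B hδ hδs hs1 hBs a haL haC haB N c e w he hsep hew hwR hcl hc0
  have hs : 0 < s := hδ.trans_le hδs
  have hk0 : (0:ℝ) < k := by exact_mod_cast hk
  have hk1 : (1:ℝ) ≤ k := by exact_mod_cast hk
  rw [eLpNorm_eq_lintegral_rpow_enorm_toReal (by simpa using hq0) ENNReal.ofReal_ne_top,
    ENNReal.toReal_ofReal hq0.le]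
  rcases Nat.eq_zero_or_pos N with hN | hN
  · subst hN
    simp [hq0]
  have hN0 : (0:ℝ) < N := by exact_mod_cast hN
  -- parameters
  set r : ℝ := δ / (4 * (1 + L)) with hr
  have hL0 : (0:ℝ) ≤ L := L.2
  have hr0 : 0 < r := by positivity
  have hrδ4 : r ≤ δ / 4 := by
    rw [hr]
    apply div_le_div_of_nonneg_left hδ.le (by norm_num)
    linarith
  have hrδ : r ≤ δ := by linarith
  have hrδ2 : r ≤ δ / 2 := by linarith
  set h : ℝ := s / (4 * d) with hh
  have hh0 : 0 < h := by positivity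
  have hdh : d * h = s / 4 := by rw [hh]; field_simp
  set J := cells d h R with hJ
  set j : Fin N → (Fin d → ℤ) := fun i => cell h (w i) with hj
  have hjJ : ∀ i, j i ∈ J := fun i => cell_mem h R hh0 (w i) (hwR i)
  have hJc : (J.card : ℝ) ≤ ((8 * d * R + 3) / s) ^ d := by
    refine (card_cells d h R hh0 hR).trans ?_
    apply pow_le_pow_left₀ (by positivity)
    have : 2 * (R / h) + 3 = (8 * d * R) / s + 3 := by rw [hh]; field_simp; ring
    rw [this, add_div]
    have h3 : (3:ℝ) ≤ 3 / s := by rw [le_div_iff₀ hs]; linarith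
    linarith
  set P : (Fin d → ℤ) → EuclideanSpace ℝ (Fin d) → EuclideanSpace ℝ (Fin d) :=
    fun m => tay a (k - 1) (gridpt h m) with hP
  have hPpoly : ∀ m, IsPolyMap (k - 1) (P m) := fun m => tay_poly a (k - 1) (gridpt h m)
  have hPpoly' : ∀ m, IsPolyMap k (P m) := by
    intro m
    obtain ⟨F, h1, h2⟩ := hPpoly m
    exact ⟨F, fun i l => (h1 i l).trans (Nat.sub_le _ _), h2⟩
  set m0 : ℕ := (k * d + 1) ^ d with hm0
  set M : ℕ := 2 * (J.card * m0) with hM
  have hJpos : 0 < J.card := Finset.card_pos.mpr ⟨_, hjJ ⟨0, hN⟩⟩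
  have hM1 : 1 ≤ M := by
    rw [hM]
    have : 0 < m0 := by positivity
    have := Nat.mul_pos hJpos this
    omega
  -- approximation
  have hopen : IsOpen (Metric.ball (0 : EuclideanSpace ℝ (Fin d)) (R + 1)) := Metric.isOpen_ball
  have hwi : ∀ i, w i ∈ Metric.ball (0 : EuclideanSpace ℝ (Fin d)) (R + 1) := by
    intro i
    rw [mem_ball_zero_iff]
    have := hwR i
    linarith
  have hwj : ∀ i, ‖w i - gridpt h (j i)‖ ≤ s / 4 := by
    intro i
    rw [← hdh]
    exact norm_sub_gridpt hd h hh0 (w i)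
  have hvball : ∀ i, ∀ v ∈ Metric.ball (w i) r, v ∈ Metric.ball (0 : EuclideanSpace ℝ (Fin d)) (R + 1) := by
    intro i v hv
    rw [mem_ball_zero_iff]
    have h1 : ‖v - w i‖ < r := by rw [← dist_eq_norm]; exact hv
    have h2 := hwR i
    calc ‖v‖ = ‖w i + (v - w i)‖ := by rw [add_sub_cancel]
      _ ≤ ‖w i‖ + ‖v - w i‖ := norm_add_le _ _
      _ < R + 1 := by linarith
  have happrox : ∀ i, ∀ v ∈ Metric.ball (w i) r, ‖a v - P (j i) v‖ ≤ δ := by
    intro i v hv
    have hgb : gridpt h (j i) ∈ Metric.ball (0 : EuclideanSpace ℝ (Fin d)) (R + 1) := by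
      rw [mem_ball_zero_iff]
      have h1 := hwj i
      have h2 := hwR i
      calc ‖gridpt h (j i)‖ = ‖w i - (w i - gridpt h (j i))‖ := by rw [sub_sub_cancel]
        _ ≤ ‖w i‖ + ‖w i - gridpt h (j i)‖ := norm_sub_le _ _
        _ < R + 1 := by linarith
    have hseg : segment ℝ (gridpt h (j i)) v ⊆ Metric.ball (0 : EuclideanSpace ℝ (Fin d)) (R + 1) :=
      (convex_ball _ _).segment_subset hgb (hvball i v hv)
    have hkk : ((k - 1 : ℕ) : WithTop ℕ∞) + 1 = (k : WithTop ℕ∞) := by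
      have : (k - 1) + 1 = k := Nat.sub_add_cancel hk
      exact_mod_cast this
    have hkk' : (k - 1) + 1 = k := Nat.sub_add_cancel hk
    have hb := tay_bound a (k - 1) (gridpt h (j i)) v B (by
      intro z hz
      rw [hkk]
      exact (haC z (hseg hz)).contDiffAt (hopen.mem_nhds (hseg hz))) (by
      intro z hz
      rw [hkk']
      exact haB z (hseg hz))
    rw [hkk'] at hb
    have hv1 : ‖v - gridpt h (j i)‖ ≤ s / 2 := by
      have h1 : ‖v - w i‖ < r := by rw [← dist_eq_norm]; exact hv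
      have h2 := hwj i
      calc ‖v - gridpt h (j i)‖ = ‖(v - w i) + (w i - gridpt h (j i))‖ := by rw [sub_add_sub_cancel]
        _ ≤ ‖v - w i‖ + ‖w i - gridpt h (j i)‖ := norm_add_le _ _
        _ ≤ s / 2 := by linarith
    have hB0 : 0 ≤ B := (norm_nonneg _).trans (haB _ hgb)
    refine hb.trans ?_
    have hfac : (k.factorial : ℝ) = k * ((k-1).factorial : ℝ) := by
      have := Nat.mul_factorial_pred (n := k) (by omega)
      exact_mod_cast this.symm
    have hfp : (0:ℝ) < ((k-1).factorial : ℝ) := by exact_mod_cast Nat.factorial_pos _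
    have h2k : (k:ℝ) ≤ 2 ^ k := by exact_mod_cast (Nat.lt_two_pow_self (n := k)).le
    calc ((k-1).factorial : ℝ)⁻¹ * (B * ‖v - gridpt h (j i)‖ ^ k)
        ≤ ((k-1).factorial : ℝ)⁻¹ * (B * (s / 2) ^ k) := by gcongr
      _ = ((k-1).factorial : ℝ)⁻¹ * (B * s ^ k) / 2 ^ k := by rw [div_pow]; ring
      _ ≤ ((k-1).factorial : ℝ)⁻¹ * (k.factorial * δ) / 2 ^ k := by gcongr
      _ = (k / 2 ^ k) * δ := by rw [hfac]; field_simp
      _ ≤ 1 * δ := by
          gcongr
          rw [div_le_one (by positivity)]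
          exact h2k
      _ = δ := one_mul _
  have hb : ∀ i, ‖(tl (c i) - (c i 0) • w i) - a (w i)‖ ≤ (1 + R) * R * δ := by
    intro i
    obtain ⟨p, hp, hcp⟩ := hcl i
    rw [mem_line_iff] at hp
    have h1 : ‖tl (c i) - tl p‖ ≤ R * δ := by
      rw [← tl_sub]
      exact (norm_tl_le _).trans hcp
    have h0 : |p 0 - c i 0| ≤ R * δ := by
      have := abs_zero_le (c i - p)
      rw [abs_sub_comm]
      exact (this.trans hcp)
    have hkey : (tl (c i) - (c i 0) • w i) - a (w i) = (tl (c i) - tl p) + (p 0 - c i 0) • w i := by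
      rw [← hp, sub_smul]
      abel
    rw [hkey]
    calc ‖(tl (c i) - tl p) + (p 0 - c i 0) • w i‖
        ≤ ‖tl (c i) - tl p‖ + ‖(p 0 - c i 0) • w i‖ := norm_add_le _ _
      _ ≤ R * δ + R * δ * R := by
          rw [norm_smul, Real.norm_eq_abs]
          have := hwR i
          gcongr
      _ = (1 + R) * R * δ := by ring
  have hcP : ∀ i, ∀ v ∈ Metric.ball (w i) r, ‖(tl (c i) - (c i 0) • w i) - P (j i) v‖ ≤
      (β - (1 + R') - R') * δ := by
    intro i v hv
    have h1 : ‖a (w i) - a v‖ ≤ δ := by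
      have h2 := haL.dist_le_mul (w i) (hwi i) v (hvball i v hv)
      rw [dist_eq_norm] at h2
      have h3 : dist (w i) v ≤ r := by rw [dist_comm]; exact (Metric.mem_ball.mp hv).le
      calc ‖a (w i) - a v‖ ≤ L * dist (w i) v := h2
        _ ≤ L * r := by gcongr
        _ ≤ (4 * (1 + L)) * r := by gcongr; linarith
        _ = δ := by rw [hr]; field_simp
    calc ‖(tl (c i) - (c i 0) • w i) - P (j i) v‖
        = ‖((tl (c i) - (c i 0) • w i) - a (w i)) + (a (w i) - a v) + (a v - P (j i) v)‖ := by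
          congr 1; abel
      _ ≤ ‖(tl (c i) - (c i 0) • w i) - a (w i)‖ + ‖a (w i) - a v‖ + ‖a v - P (j i) v‖ := norm_add₃_le
      _ ≤ (1 + R) * R * δ + δ + δ := add_le_add (add_le_add (hb i) h1) (happrox i v hv)
      _ = (β - (1 + R') - R') * δ := by rw [hβ]; ring
  have hI' : ∀ i, ∀ p ∈ tube δ (c i) (e i), p 0 ∈ Set.Icc (-R') R' := by
    intro i p hp
    have hδ1 : δ ≤ 1 := hδs.trans hs1
    have h1 : p - c i = ⟪p - c i, e i⟫_ℝ • e i + (p - c i - ⟪p - c i, e i⟫_ℝ • e i) := by abel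
    have h2 : ‖p - c i‖ ≤ 2 := by
      rw [h1]
      refine (norm_add_le _ _).trans ?_
      rw [norm_smul, he i, mul_one, Real.norm_eq_abs]
      have h3 := hp.1
      have h4 := hp.2
      linarith
    have h3 := abs_zero_le (p - c i)
    have h4 : |p 0 - c i 0| ≤ 2 := h3.trans h2
    have h5 := hc0 i
    rw [Set.mem_Icc]
    have h6 := abs_le.mp h4
    have h7 := abs_le.mp h5
    constructor <;> rw [hR'] <;> linarith
  have hMt : ∀ᵐ t : ℝ, t ∈ Set.Icc (-R') R' → ∀ᵐ x : EuclideanSpace ℝ (Fin d),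
      {z : Fin N × EuclideanSpace ℝ (Fin d) |
        z.2 ∈ Metric.ball (w z.1) r ∧ P (j z.1) z.2 + t • z.2 = x}.encard ≤ M := by
    refine Filter.Eventually.of_forall fun t _ => ?_
    have h1 : ∀ᵐ x : EuclideanSpace ℝ (Fin d), ∀ m ∈ J, {v | P m v + t • v = x}.encard ≤ (m0 : ℕ) := by
      rw [Filter.eventually_all_finset]
      intro m _
      exact (hPpoly' m).mult hk t
    filter_upwards [h1] with x hx
    exact mult_cells δ r hrδ2 e w he hew hsep J j hjJ P t x m0 hx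
  have hmain := main_est hN hd q hq R' β (by positivity) (by rw [hβ]; nlinarith [mul_nonneg (add_nonneg zero_le_one hR) hR]) M hM1 (Set.Icc (-R') R')
    measurableSet_Icc (fun t ht => abs_le.mpr ht) δ r hr0 hrδ c e w (fun i => P (j i))
    (fun i => (hwR i).trans (by rw [hR']; linarith)) hew
    (fun i => (hPpoly (j i)).differentiable.continuous.measurable)
    (fun i => Filter.Eventually.of_forall fun v _ => (hPpoly (j i)).differentiable v) hcP hI' hMt
  have hMroot : (M:ℝ) ^ ((1:ℝ)/d) ≤ (4 * d * (8 * d * R + 3)) * (k / s) := by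
    have h1 : (M:ℝ) ≤ (((4 * d * (8 * d * R + 3)) * (k / s))) ^ (d : ℝ) := by
      rw [Real.rpow_natCast]
      have e1 : (2:ℝ) ≤ 2 ^ d := by
        calc (2:ℝ) = 2 ^ 1 := (pow_one _).symm
          _ ≤ 2 ^ d := pow_le_pow_right₀ (by norm_num) hd
      have e2 : (m0 : ℝ) ≤ (2 * d * k) ^ d := by
        rw [hm0]
        push_cast
        apply pow_le_pow_left₀ (by positivity)
        nlinarith
      calc (M:ℝ) = 2 * ((J.card : ℝ) * m0) := by rw [hM]; push_cast; ring
        _ ≤ 2 ^ d * (((8 * d * R + 3) / s) ^ d * (2 * d * k) ^ d) := by gcongr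
        _ = _ := by
            rw [← mul_pow, ← mul_pow]
            congr 1
            field_simp
            ring
    calc (M:ℝ) ^ ((1:ℝ)/d) ≤ ((((4 * d * (8 * d * R + 3)) * (k / s))) ^ (d : ℝ)) ^ ((1:ℝ)/d) :=
          Real.rpow_le_rpow (by positivity) h1 (by positivity)
      _ = _ := by
          rw [← Real.rpow_mul (by positivity), mul_one_div_cancel hd0.ne', Real.rpow_one]
  have hδr : δ / r = 4 * (1 + L) := by rw [hr]; field_simp
  have hfinal : ∫⁻ p, ‖∑ i, (tube δ (c i) (e i)).indicator (fun _ => (1:ℝ)) p‖ₑ ^ q ≤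
      ENNReal.ofReal (C1 * ((1 + L) * k / s) * δ ^ d * (N:ℝ) ^ (q - 1 / d)) := by
    refine hmain.trans (ENNReal.ofReal_le_ofReal ?_)
    rw [← hC0, hδr]
    calc C0 * (4 * (1 + L)) * (M:ℝ) ^ ((1:ℝ)/d) * δ ^ d * (N:ℝ) ^ (q - 1 / d)
        ≤ C0 * (4 * (1 + L)) * ((4 * d * (8 * d * R + 3)) * (k / s)) * δ ^ d * (N:ℝ) ^ (q - 1 / d) := by
          gcongr
      _ = _ := by rw [hC1]; ring
  refine (ENNReal.rpow_le_rpow hfinal (by positivity)).trans (le_of_eq ?_)
  rw [ENNReal.ofReal_rpow_of_pos (by positivity)]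
  congr 1
  rw [Real.mul_rpow (by positivity) (by positivity), Real.mul_rpow (by positivity) (by positivity),
    Real.mul_rpow (by positivity) (by positivity), ← Real.rpow_natCast δ, ← Real.rpow_mul (by positivity),
    ← Real.rpow_mul (by positivity)]
  congr 1
  · congr 1
    congr 1
    field_simp
  · congr 1
    field_simp

end Pool.Agent.H27.KakeyaSmoothCongruence
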